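import Pool.Agent.Helper29.BL.GoalsB

/-!
# Project BL, plane algebra: degrees of bivariate polynomials
-/

set_option autoImplicit false

namespace Pool.Agent.Helper85.BL

open Polynomial Pool.Agent.Helper29.BL
open scoped Polynomial.Bivariate

noncomputable section

theorem coeff_swap {R : Type} [CommRing R] (F : R[X][Y]) (i j : ℕ) :
    ((Bivariate.swap F).coeff i).coeff j = (F.coeff j).coeff i := by
  induction F using Polynomial.induction_on' with
  | add p q hp hq => simp only [map_add, coeff_add, hp, hq]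
  | monomial n f =>
    induction f using Polynomial.induction_on' with
    | add p q hp hq => simp only [map_add, coeff_add, hp, hq]
    | monomial m r =>
      rw [Bivariate.swap_monomial_monomial]
      simp only [coeff_monomial]
      by_cases h1 : m = i <;> by_cases h2 : n = j <;> simp [h1, h2, coeff_monomial]

theorem BD_iff {R : Type} [CommRing R] {k : ℕ} {F : R[X][Y]} :
    BD k F ↔ F.natDegree ≤ k ∧ (Bivariate.swap F).natDegree ≤ k := by
  unfold BD
  refine and_congr_right fun _ => ⟨fun h => ?_, fun h j => ?_⟩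
  · rw [natDegree_le_iff_coeff_eq_zero]
    intro i hi
    ext j
    rw [coeff_swap, coeff_zero]
    exact coeff_eq_zero_of_natDegree_lt ((h j).trans_lt hi)
  · rw [natDegree_le_iff_coeff_eq_zero]
    intro i hi
    rw [← coeff_swap]
    rw [coeff_eq_zero_of_natDegree_lt (h.trans_lt hi), coeff_zero]

theorem BD.mul {R : Type} [CommRing R] {a b : ℕ} {F G : R[X][Y]} (hF : BD a F) (hG : BD b G) :
    BD (a + b) (F * G) := by
  rw [BD_iff] at *
  refine ⟨natDegree_mul_le.trans (add_le_add hF.1 hG.1), ?_⟩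
  rw [map_mul]
  exact natDegree_mul_le.trans (add_le_add hF.2 hG.2)

theorem BD.mono {R : Type} [CommRing R] {a b : ℕ} {F : R[X][Y]} (hF : BD a F) (h : a ≤ b) :
    BD b F := ⟨hF.1.trans h, fun j => (hF.2 j).trans h⟩

theorem BD.add {R : Type} [CommRing R] {a : ℕ} {F G : R[X][Y]} (hF : BD a F) (hG : BD a G) :
    BD a (F + G) := by
  rw [BD_iff] at *
  refine ⟨natDegree_add_le_of_degree_le hF.1 hG.1, ?_⟩
  rw [map_add]
  exact natDegree_add_le_of_degree_le hF.2 hG.2

theorem BD_zero {R : Type} [CommRing R] (a : ℕ) : BD a (0 : R[X][Y]) := by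
  rw [BD_iff]
  simp

theorem BD.smul {R : Type} [CommRing R] {a : ℕ} {F : R[X][Y]} (hF : BD a F) (c : R) :
    BD a (c • F) := by
  rw [BD_iff] at *
  refine ⟨(natDegree_smul_le c F).trans hF.1, ?_⟩
  rw [map_smul]
  exact (natDegree_smul_le c _).trans hF.2

theorem BD_one {R : Type} [CommRing R] (a : ℕ) : BD a (1 : R[X][Y]) := by
  rw [BD_iff, map_one]
  simp

/-- The sum of the degrees in `X` and `Y`. -/
def dt {R : Type} [CommRing R] (F : R[X][Y]) : ℕ := F.natDegree + (Bivariate.swap F).natDegree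

theorem BD.dt_le {R : Type} [CommRing R] {a : ℕ} {F : R[X][Y]} (hF : BD a F) : dt F ≤ 2 * a := by
  rw [BD_iff] at hF
  unfold dt
  omega

section field

variable {k : Type} [Field k]

theorem dt_mul {F G : k[X][Y]} (hF : F ≠ 0) (hG : G ≠ 0) : dt (F * G) = dt F + dt G := by
  have h1 : Bivariate.swap F ≠ 0 := by
    rwa [Ne, EmbeddingLike.map_eq_zero_iff]
  have h2 : Bivariate.swap G ≠ 0 := by
    rwa [Ne, EmbeddingLike.map_eq_zero_iff]
  unfold dt
  rw [map_mul, natDegree_mul hF hG, natDegree_mul h1 h2]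
  ring

theorem dt_pos {F : k[X][Y]} (hF : F ≠ 0) (hu : ¬ IsUnit F) : 1 ≤ dt F := by
  by_contra h
  have h0 : F.natDegree = 0 ∧ (Bivariate.swap F).natDegree = 0 := by
    unfold dt at h
    omega
  obtain ⟨f, hf⟩ := natDegree_eq_zero.1 h0.1
  rw [← hf, Bivariate.swap_C] at h0
  rw [natDegree_map_eq_of_injective C_injective] at h0
  obtain ⟨a, ha⟩ := natDegree_eq_zero.1 h0.2
  rw [← hf, ← ha] at hu hF
  apply hu
  have : a ≠ 0 := by
    rintro rfl
    apply hF
    simp
  exact ((isUnit_iff_ne_zero.2 this).map C).map C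

theorem BD_of_dvd {m : ℕ} {F G : k[X][Y]} (hG : G ≠ 0) (h : F ∣ G) (hB : BD m G) : BD m F := by
  obtain ⟨H, rfl⟩ := h
  have hF : F ≠ 0 := left_ne_zero_of_mul hG
  have hH : H ≠ 0 := right_ne_zero_of_mul hG
  have h1 : Bivariate.swap F ≠ 0 := by
    rwa [Ne, EmbeddingLike.map_eq_zero_iff]
  have h2 : Bivariate.swap H ≠ 0 := by
    rwa [Ne, EmbeddingLike.map_eq_zero_iff]
  rw [BD_iff] at *
  rw [map_mul, natDegree_mul hF hH, natDegree_mul h1 h2] at hB
  omega

theorem ev_mul {R : Type} [CommRing R] (F G : R[X][Y]) (p : R × R) : ev (F * G) p = ev F p * ev G p := by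
  unfold ev
  rw [evalEval_mul]

theorem ev_add {R : Type} [CommRing R] (F G : R[X][Y]) (p : R × R) : ev (F + G) p = ev F p + ev G p := by
  unfold ev
  rw [evalEval_add]

theorem ev_one {R : Type} [CommRing R] (p : R × R) : ev (1 : R[X][Y]) p = 1 := by
  unfold ev
  rw [evalEval_one]

theorem ev_smul {R : Type} [CommRing R] (c : R) (F : R[X][Y]) (p : R × R) : ev (c • F) p = c * ev F p := by
  unfold ev
  rw [evalEval_smul, smul_eq_mul]

theorem ev_of_dvd {R : Type} [CommRing R] {F G : R[X][Y]} {p : R × R} (h : F ∣ G) (h0 : ev F p = 0) :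
    ev G p = 0 := by
  obtain ⟨H, rfl⟩ := h
  rw [ev_mul, h0, zero_mul]

end field

end

end Pool.Agent.Helper85.BL
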