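import Pool.Agent.Helper85.BL.RES

/-!
# Packet BZ of project BL (MP_a41896_nt)
-/

set_option autoImplicit false

namespace Pool.Agent.Helper85.BL

open Polynomial Pool.Agent.Helper29.BL
open scoped Polynomial.Bivariate

noncomputable section

variable {k : Type} [Field k]

theorem ev_eq_eval_map (F : k[X][Y]) (p : k × k) : ev F p = (F.map (evalRingHom p.1)).eval p.2 := by
  unfold ev
  rw [map_evalRingHom_eval]

theorem C_dvd_of_map_eq_zero {F : k[X][Y]} {ξ : k} (h : F.map (evalRingHom ξ) = 0) :
    C (X - C ξ) ∣ F := by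
  rw [C_dvd_iff_dvd_coeff]
  intro j
  rw [dvd_iff_isRoot]
  have := congrArg (fun f => f.coeff j) h
  simpa using this

theorem not_isUnit_lin (ξ : k) : ¬ IsUnit (C (X - C ξ) : k[X][Y]) := by
  rw [isUnit_C]
  exact not_isUnit_X_sub_C ξ

theorem map_ne_zero_or {F G : k[X][Y]} (h : IsRelPrime F G) (ξ : k) :
    F.map (evalRingHom ξ) ≠ 0 ∨ G.map (evalRingHom ξ) ≠ 0 := by
  by_contra hcon
  push Not at hcon
  exact not_isUnit_lin ξ (h (C_dvd_of_map_eq_zero hcon.1) (C_dvd_of_map_eq_zero hcon.2))

theorem fiber_card {F : k[X][Y]} {m : ℕ} (hF : F.natDegree ≤ m) {ξ : k}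
    (h : F.map (evalRingHom ξ) ≠ 0) (s : Finset (k × k)) (hs : ∀ p ∈ s, p.1 = ξ ∧ ev F p = 0) :
    s.card ≤ m := by
  classical
  have h1 : s.card ≤ (F.map (evalRingHom ξ)).roots.toFinset.card := by
    refine Finset.card_le_card_of_injOn (fun p => p.2) ?_ ?_
    · intro p hp
      obtain ⟨h1, h2⟩ := hs p hp
      rw [Finset.mem_coe, Multiset.mem_toFinset, mem_roots h, IsRoot.def]
      rw [ev_eq_eval_map, h1] at h2
      exact h2
    · intro p hp q hq hpq
      exact Prod.ext ((hs p hp).1.trans (hs q hq).1.symm) hpq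
  refine h1.trans ((Multiset.toFinset_card_le _).trans ((card_roots' _).trans ?_))
  exact natDegree_map_le.trans hF

/-- Packet BZ. -/
theorem bz : BZ := by
  classical
  intro k _ m F G hF hG hrel s hs
  by_cases hF0 : F = 0
  · have hu : IsUnit G := by
      rw [hF0] at hrel
      exact isRelPrime_zero_left.1 hrel
    obtain ⟨H, hH⟩ := hu.exists_right_inv
    have hemp : s = ∅ := by
      rw [Finset.eq_empty_iff_forall_notMem]
      intro p hp
      have h1 := congrArg (fun f => ev f p) hH
      simp only [ev_mul, (hs p hp).2, zero_mul, ev_one] at h1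
      exact zero_ne_one h1
    rw [hemp]
    simp
  have hfib : ∀ ξ : k, (s.filter fun p => p.1 = ξ).card ≤ m := by
    intro ξ
    rcases map_ne_zero_or hrel ξ with h | h
    · exact fiber_card hF.1 h _ fun p hp =>
        ⟨(Finset.mem_filter.1 hp).2, (hs p (Finset.mem_filter.1 hp).1).1⟩
    · exact fiber_card hG.1 h _ fun p hp =>
        ⟨(Finset.mem_filter.1 hp).2, (hs p (Finset.mem_filter.1 hp).1).2⟩
  by_cases hab : F.natDegree = 0 ∧ G.natDegree = 0
  · have hemp : s = ∅ := by
      rw [Finset.eq_empty_iff_forall_notMem]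
      intro p hp
      rcases map_ne_zero_or hrel p.1 with h | h
      · have := fiber_card (m := 0) hab.1.le h {p} fun q hq => by
          rw [Finset.mem_singleton.1 hq]
          exact ⟨rfl, (hs p hp).1⟩
        simp at this
      · have := fiber_card (m := 0) hab.2.le h {p} fun q hq => by
          rw [Finset.mem_singleton.1 hq]
          exact ⟨rfl, (hs p hp).2⟩
        simp at this
    rw [hemp]
    simp
  have hab' : F.natDegree ≠ 0 ∨ G.natDegree ≠ 0 := by
    by_contra hcon
    push Not at hcon
    exact hab hcon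
  have hR := resultant_ne_zero' hF0 hrel
  have hdeg : (F.resultant G).natDegree ≤ 2 * m ^ 2 := by
    refine (natDegree_resultant_le hF.2 hG.2 _ _).trans ?_
    have h1 : F.natDegree + G.natDegree ≤ m + m := add_le_add hF.1 hG.1
    calc (F.natDegree + G.natDegree) * m ≤ (m + m) * m := Nat.mul_le_mul_right _ h1
      _ = 2 * m ^ 2 := by ring
  have himg : (s.image fun p => p.1).card ≤ 2 * m ^ 2 := by
    have h1 : (s.image fun p => p.1) ⊆ (F.resultant G).roots.toFinset := by
      intro ξ hξ
      obtain ⟨p, hp, rfl⟩ := Finset.mem_image.1 hξ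
      rw [Multiset.mem_toFinset, mem_roots hR, IsRoot.def]
      exact eval_resultant le_rfl le_rfl hab' (hs p hp).1 (hs p hp).2
    exact (Finset.card_le_card h1).trans ((Multiset.toFinset_card_le _).trans
      ((card_roots' _).trans hdeg))
  have h1 := Finset.card_le_mul_card_image (f := fun p : k × k => p.1) s m (fun ξ _ => hfib ξ)
  calc s.card ≤ m * (s.image fun p => p.1).card := h1
    _ ≤ m * (2 * m ^ 2) := Nat.mul_le_mul_left _ himg
    _ = 2 * m ^ 3 := by ring

end

end Pool.Agent.Helper85.BL
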