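import Pool.Agent.Helper85.BL.BZ
import Pool.Agent.Helper29.BL.RH

/-!
# Packet EL of project BL (MP_a41896_nt)
-/

set_option autoImplicit false

namespace Pool.Agent.Helper85.BL

open Polynomial Pool.Agent.Helper29.BL Height Height.AdmissibleAbsValues
open scoped Polynomial.Bivariate

noncomputable section

section local_

variable {K : Type} [Field K]

/-- All coefficients of `f` have absolute value `≤ B`. -/
def CB (v : AbsoluteValue K ℝ) (B : ℝ) (f : K[X]) : Prop := ∀ j, v (f.coeff j) ≤ B

theorem cst_nonneg (v : AbsoluteValue K ℝ) {c : ℝ} (hc : 1 ≤ c) : 0 ≤ cst v c := (cst_pos v hc).le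

theorem CB_mul {v : AbsoluteValue K ℝ} {B B' : ℝ} {f g : K[X]} {d : ℕ} (hB : 0 ≤ B) (hB' : 0 ≤ B')
    (hf : CB v B f) (hg : CB v B' g) (hd : f.natDegree ≤ d) :
    CB v (cst v (d + 1) * (B * B')) (f * g) := by
  intro n
  rw [coeff_mul, Finset.Nat.sum_antidiagonal_eq_sum_range_succ (fun i j => f.coeff i * g.coeff j)]
  have h1 : ∑ i ∈ Finset.range n.succ, f.coeff i * g.coeff (n - i) =
      ∑ i ∈ (Finset.range n.succ).filter (· ≤ d), f.coeff i * g.coeff (n - i) := by
    rw [Finset.sum_filter_of_ne]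
    intro i _ hne
    by_contra hlt
    apply hne
    rw [coeff_eq_zero_of_natDegree_lt (by omega), zero_mul]
  rw [h1]
  refine abv_sum_le v _ _ (mul_nonneg hB hB') (fun i _ => ?_) ?_
  · rw [v.map_mul]
    exact mul_le_mul (hf _) (hg _) (v.nonneg _) hB
  · have h2 : ((Finset.range n.succ).filter (· ≤ d)).card ≤ d + 1 := by
      refine (Finset.card_le_card (t := Finset.range (d + 1)) ?_).trans (by rw [Finset.card_range])
      intro i hi
      rw [Finset.mem_filter] at hi
      rw [Finset.mem_range]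
      omega
    exact_mod_cast h2

theorem CB_prod {v : AbsoluteValue K ℝ} {d : ℕ} {ι : Type} (s : Finset ι) (f : ι → K[X])
    (B : ι → ℝ) (hB : ∀ i ∈ s, 0 ≤ B i) (hf : ∀ i ∈ s, CB v (B i) (f i))
    (hd : ∀ i ∈ s, (f i).natDegree ≤ d) :
    CB v (cst v ((d : ℝ) + 1) ^ s.card * ∏ i ∈ s, B i) (∏ i ∈ s, f i) := by
  classical
  induction s using Finset.induction_on with
  | empty =>
    intro j
    simp only [Finset.prod_empty, Finset.card_empty, pow_zero, mul_one, coeff_one]
    split_ifs
    · rw [v.map_one]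
    · rw [v.map_zero]; exact zero_le_one
  | insert a s ha ih =>
    rw [Finset.prod_insert ha, Finset.prod_insert ha, Finset.card_insert_of_notMem ha]
    have h1 : (1 : ℝ) ≤ d + 1 := by linarith [Nat.cast_nonneg (α := ℝ) d]
    have h2 := ih (fun i hi => hB i (Finset.mem_insert_of_mem hi))
      (fun i hi => hf i (Finset.mem_insert_of_mem hi))
      (fun i hi => hd i (Finset.mem_insert_of_mem hi))
    have h3 : 0 ≤ cst v ((d : ℝ) + 1) ^ s.card * ∏ i ∈ s, B i :=
      mul_nonneg (pow_nonneg (cst_nonneg v h1) _)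
        (Finset.prod_nonneg fun i hi => hB i (Finset.mem_insert_of_mem hi))
    have h4 := CB_mul (hB a (Finset.mem_insert_self a s)) h3 (hf a (Finset.mem_insert_self a s))
      h2 (hd a (Finset.mem_insert_self a s))
    intro j
    refine (h4 j).trans (le_of_eq ?_)
    ring

theorem CB_det {v : AbsoluteValue K ℝ} {d n : ℕ} (M : Matrix (Fin n) (Fin n) K[X])
    (B : Fin n → ℝ) (hB : ∀ i, 0 ≤ B i) (hM : ∀ i j, CB v (B j) (M i j))
    (hd : ∀ i j, (M i j).natDegree ≤ d) :
    CB v (cst v (n.factorial : ℝ) * (cst v ((d : ℝ) + 1) ^ n * ∏ i, B i)) M.det := by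
  intro j
  rw [Matrix.det_apply, finsetSum_coeff]
  have h1 : (1 : ℝ) ≤ d + 1 := by linarith [Nat.cast_nonneg (α := ℝ) d]
  have h0 : 0 ≤ cst v ((d : ℝ) + 1) ^ n * ∏ i, B i :=
    mul_nonneg (pow_nonneg (cst_nonneg v h1) _) (Finset.prod_nonneg fun i _ => hB i)
  refine abv_sum_le v _ _ h0 (fun σ _ => ?_) ?_
  · have h2 := CB_prod (v := v) (d := d) Finset.univ (fun i => M (σ i) i) B (fun i _ => hB i)
      (fun i _ => hM _ _) (fun i _ => hd _ _) j
    rw [Finset.card_univ, Fintype.card_fin] at h2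
    rcases Int.units_eq_one_or (Equiv.Perm.sign σ) with h3 | h3
    · rw [h3, one_smul]
      exact h2
    · rw [h3, Units.neg_smul, one_smul, coeff_neg, abv_neg]
      exact h2
  · rw [Finset.card_univ, Fintype.card_perm, Fintype.card_fin]

theorem cmax_nn (m : ℕ) (F : K[X][Y]) (v : AbsoluteValue K ℝ) : 0 ≤ cmax m F v :=
  Real.iSup_nonneg fun _ => v.nonneg _

theorem le_cmax {m : ℕ} {F : K[X][Y]} (hF : BD m F) (v : AbsoluteValue K ℝ) (i j : ℕ) :
    v ((F.coeff j).coeff i) ≤ cmax m F v := by
  by_cases hj : j ≤ m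
  · by_cases hi : i ≤ m
    · exact le_ciSup (f := fun ij : Fin (m + 1) × Fin (m + 1) => v ((F.coeff ij.2).coeff ij.1))
        (Set.finite_range _).bddAbove (⟨i, Nat.lt_succ_of_le hi⟩, ⟨j, Nat.lt_succ_of_le hj⟩)
    · rw [coeff_eq_zero_of_natDegree_lt ((hF.2 j).trans_lt (not_le.1 hi)), v.map_zero]
      exact cmax_nn m F v
  · rw [coeff_eq_zero_of_natDegree_lt (hF.1.trans_lt (not_le.1 hj)), coeff_zero, v.map_zero]
    exact cmax_nn m F v

theorem CB_resultant {v : AbsoluteValue K ℝ} {m : ℕ} {F G : K[X][Y]} (hF : BD m F) (hG : BD m G)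
    (a b : ℕ) :
    CB v (cst v ((a + b).factorial : ℝ) * (cst v ((m : ℝ) + 1) ^ (a + b) *
      (cmax m G v ^ a * cmax m F v ^ b))) (F.resultant G a b) := by
  have h := CB_det (v := v) (d := m) (sylvester F G a b)
    (fun j => Fin.addCases (fun _ => cmax m G v) (fun _ => cmax m F v) j)
    (fun j => by
      induction j using Fin.addCases with
      | left j => rw [Fin.addCases_left]; exact cmax_nn m G v
      | right j => rw [Fin.addCases_right]; exact cmax_nn m F v)
    (fun i j => by
      unfold sylvester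
      rw [Matrix.of_apply]
      induction j using Fin.addCases with
      | left j =>
        rw [Fin.addCases_left, Fin.addCases_left]
        intro l
        split_ifs
        · exact le_cmax hG v _ _
        · rw [coeff_zero, v.map_zero]; exact cmax_nn m G v
      | right j =>
        rw [Fin.addCases_right, Fin.addCases_right]
        intro l
        split_ifs
        · exact le_cmax hF v _ _
        · rw [coeff_zero, v.map_zero]; exact cmax_nn m F v)
    (fun i j => by
      unfold sylvester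
      rw [Matrix.of_apply]
      induction j using Fin.addCases with
      | left j =>
        rw [Fin.addCases_left]
        split_ifs
        · exact hG.2 _
        · simp
      | right j =>
        rw [Fin.addCases_right]
        split_ifs
        · exact hF.2 _
        · simp)
  have h2 : ∏ j : Fin (a + b), (Fin.addCases (fun _ => cmax m G v) (fun _ => cmax m F v) j : ℝ) =
      cmax m G v ^ a * cmax m F v ^ b := by
    rw [Fin.prod_univ_add]
    simp
  intro j
  have h3 := h j
  rw [h2] at h3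
  exact h3

end local_

section global

variable {K : Type} [Field K] [NumberField K]

theorem hp_nonneg (m : ℕ) (F : K[X][Y]) : 0 ≤ hp m F := logHeight_nonneg _

/-- no common zeros if the degrees in `Y` are zero -/
theorem no_zero {K : Type} [Field K] {F G : K[X][Y]} (h : IsRelPrime F G) (hF : F.natDegree = 0)
    (hG : G.natDegree = 0) {p : K × K} (h1 : ev F p = 0) (h2 : ev G p = 0) : False := by
  rcases map_ne_zero_or h p.1 with h3 | h3
  · have := fiber_card (m := 0) hF.le h3 {p} fun q hq => by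
      rw [Finset.mem_singleton.1 hq]
      exact ⟨rfl, h1⟩
    simp at this
  · have := fiber_card (m := 0) hG.le h3 {p} fun q hq => by
      rw [Finset.mem_singleton.1 hq]
      exact ⟨rfl, h2⟩
    simp at this

theorem no_zero_of_isUnit {K : Type} [Field K] {G : K[X][Y]} (h : IsUnit G) {p : K × K}
    (h2 : ev G p = 0) : False := by
  obtain ⟨H, hH⟩ := h.exists_right_inv
  have h1 := congrArg (fun f => ev f p) hH
  simp only [ev_mul, h2, zero_mul, ev_one] at h1
  exact zero_ne_one h1

/-- The height of the first coordinate of a common zero. -/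
theorem el_first (K : Type) [Field K] [NumberField K] (m : ℕ) : ∃ C : ℝ, 0 ≤ C ∧
    ∀ (F G : K[X][Y]), BD m F → BD m G → IsRelPrime F G → ∀ p : K × K, ev F p = 0 → ev G p = 0 →
      logHeight₁ p.1 ≤ C * (hp m F + hp m G + 1) := by
  obtain ⟨C₁, hC₁⟩ := rh K (2 * m ^ 2)
  have hm1 : (1 : ℝ) ≤ m + 1 := by linarith [Nat.cast_nonneg (α := ℝ) m]
  set c₀ : ℝ := ((2 * m).factorial : ℝ) * ((m : ℝ) + 1) ^ (2 * m) with hc₀
  have hfac : (1 : ℝ) ≤ ((2 * m).factorial : ℝ) := by
    exact_mod_cast Nat.one_le_iff_ne_zero.2 (Nat.factorial_ne_zero _)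
  have hc₀1 : 1 ≤ c₀ := by
    have h2 : (1 : ℝ) ≤ ((m : ℝ) + 1) ^ (2 * m) := one_le_pow₀ hm1
    nlinarith
  refine ⟨m + totalWeight K * Real.log c₀ + |C₁|, ?_, ?_⟩
  · have : 0 ≤ Real.log c₀ := Real.log_nonneg hc₀1
    positivity
  intro F G hF hG hrel p h1 h2
  have hF0 : F ≠ 0 := by
    intro h
    rw [h] at hrel
    exact no_zero_of_isUnit (isRelPrime_zero_left.1 hrel) h2
  have hG0 : G ≠ 0 := by
    intro h
    rw [h] at hrel
    exact no_zero_of_isUnit (isRelPrime_zero_right.1 hrel) h1
  set a := F.natDegree with ha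
  set b := G.natDegree with hb
  have hab : a ≠ 0 ∨ b ≠ 0 := by
    by_contra hcon
    push Not at hcon
    exact no_zero hrel hcon.1 hcon.2 h1 h2
  have hR := resultant_ne_zero' hF0 hrel
  have hdeg : (F.resultant G).natDegree ≤ 2 * m ^ 2 := by
    refine (natDegree_resultant_le hF.2 hG.2 _ _).trans ?_
    have h1 : F.natDegree + G.natDegree ≤ m + m := add_le_add hF.1 hG.1
    calc (F.natDegree + G.natDegree) * m ≤ (m + m) * m := Nat.mul_le_mul_right _ h1
      _ = 2 * m ^ 2 := by ring
  have hroot := hC₁ (F.resultant G) p.1 hR hdeg (eval_resultant le_rfl le_rfl hab h1 h2)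
  -- the height of the resultant
  set x : Fin (2 * m ^ 2 + 1) → K := fun j => (F.resultant G).coeff j with hx
  have hx0 : x ≠ 0 := by
    intro h
    have h3 := congrFun h ⟨(F.resultant G).natDegree, Nat.lt_succ_of_le hdeg⟩
    exact hR (leadingCoeff_eq_zero.1 h3)
  have hloc : ∀ v : AbsoluteValue K ℝ, Real.log (⨆ j, v (x j)) ≤
      Real.log (cst v c₀) + (a * Real.log (cmax m G v) + b * Real.log (cmax m F v)) := by
    intro v
    have hGp := cmax_pos hG hG0 v
    have hFp := cmax_pos hF hF0 v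
    have h3 : (⨆ j, v (x j)) ≤ cst v c₀ * (cmax m G v ^ a * cmax m F v ^ b) := by
      refine ciSup_le fun j => (CB_resultant hF hG a b j).trans ?_
      rw [← mul_assoc]
      refine mul_le_mul_of_nonneg_right ?_ (by positivity)
      rw [← cst_pow, ← cst_mul]
      refine cst_mono v ?_
      have h4 : a + b ≤ 2 * m := by
        have := hF.1
        have := hG.1
        omega
      have h5 : ((a + b).factorial : ℝ) ≤ ((2 * m).factorial : ℝ) := by
        exact_mod_cast Nat.factorial_le h4
      have h6 : ((m : ℝ) + 1) ^ (a + b) ≤ ((m : ℝ) + 1) ^ (2 * m) := pow_le_pow_right₀ hm1 h4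
      exact mul_le_mul h5 h6 (by positivity) (by positivity)
    have h4 := Real.log_le_log (iSup_abv_pos v hx0) h3
    rwa [Real.log_mul (cst_pos v hc₀1).ne' (by positivity), Real.log_mul (by positivity)
      (by positivity), Real.log_pow, Real.log_pow] at h4
  have hFS : FS (fun v : AbsoluteValue K ℝ => a * Real.log (cmax m G v) +
      b * Real.log (cmax m F v)) :=
    ((FS_log_cmax hG hG0).const_mul a).add ((FS_log_cmax hF hF0).const_mul b)
  have h := PS_mono (FS_log_iSup hx0) ((FS_log_cst c₀).add hFS) hloc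
  rw [PS_log_iSup hx0, PS_add (FS_log_cst c₀) hFS,
    PS_add ((FS_log_cmax hG hG0).const_mul a) ((FS_log_cmax hF hF0).const_mul b),
    PS_const_mul, PS_const_mul, PS_log_cmax hG hG0, PS_log_cmax hF hF0] at h
  have h4 := PS_log_cst (K := K) hc₀1
  have ha' : (a : ℝ) ≤ m := by exact_mod_cast hF.1
  have hb' : (b : ℝ) ≤ m := by exact_mod_cast hG.1
  have h5 : (a : ℝ) * hp m G ≤ m * hp m G := mul_le_mul_of_nonneg_right ha' (hp_nonneg m G)
  have h6 : (b : ℝ) * hp m F ≤ m * hp m F := mul_le_mul_of_nonneg_right hb' (hp_nonneg m F)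
  have h7 : C₁ ≤ |C₁| := le_abs_self C₁
  have h8 : 0 ≤ totalWeight K * Real.log c₀ + |C₁| := by
    have : 0 ≤ Real.log c₀ := Real.log_nonneg hc₀1
    positivity
  have h9 : 0 ≤ hp m F + hp m G := add_nonneg (hp_nonneg m F) (hp_nonneg m G)
  have h10 : logHeight₁ p.1 ≤ m * (hp m F + hp m G) + (totalWeight K * Real.log c₀ + |C₁|) := by
    linarith
  refine h10.trans ?_
  have h11 : 0 ≤ (totalWeight K * Real.log c₀ + |C₁|) * (hp m F + hp m G) := mul_nonneg h8 h9
  have h12 : (0 : ℝ) ≤ m := Nat.cast_nonneg m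
  nlinarith

theorem swap_BD {k : Type} [CommRing k] {m : ℕ} {F : k[X][Y]} (h : BD m F) :
    BD m (Bivariate.swap F) := by
  rw [BD_iff] at *
  rw [Bivariate.swap_swap_apply]
  exact ⟨h.2, h.1⟩

theorem ev_swap {k : Type} [CommRing k] (F : k[X][Y]) (p : k × k) :
    ev (Bivariate.swap F) p = ev F (p.2, p.1) := by
  have h := Bivariate.aevalAeval_swap (R := k) (A := k) p.1 p.2 F
  rw [coe_aevalAeval_eq_evalEval, coe_aevalAeval_eq_evalEval] at h
  exact h

theorem swap_isRelPrime {k : Type} [CommRing k] {F G : k[X][Y]} (h : IsRelPrime F G) :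
    IsRelPrime (Bivariate.swap F) (Bivariate.swap G) := by
  intro d h1 h2
  have h3 : Bivariate.swap d ∣ F := by
    have := map_dvd Bivariate.swap h1
    rwa [Bivariate.swap_swap_apply] at this
  have h4 : Bivariate.swap d ∣ G := by
    have := map_dvd Bivariate.swap h2
    rwa [Bivariate.swap_swap_apply] at this
  have h5 := (h h3 h4).map (Bivariate.swap : k[X][Y] ≃ₐ[k] k[X][Y])
  rwa [Bivariate.swap_swap_apply] at h5

theorem hp_swap (m : ℕ) (F : K[X][Y]) : hp m (Bivariate.swap F) = hp m F := by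
  unfold hp
  have h := logHeight_comp_equiv (K := K) (Equiv.prodComm (Fin (m + 1)) (Fin (m + 1)))
    (fun ij : Fin (m + 1) × Fin (m + 1) => (F.coeff ij.2).coeff ij.1)
  rw [← h]
  congr 1
  funext ij
  simp only [coeff_swap, Function.comp_apply, Equiv.prodComm_apply, Prod.fst_swap, Prod.snd_swap]

/-- Packet EL. -/
theorem el : EL := by
  intro K _ _ m
  obtain ⟨C, hC0, hC⟩ := el_first K m
  refine ⟨2 * C, by positivity, fun F G hF hG hrel p h1 h2 => ?_⟩
  have h3 := hC F G hF hG hrel p h1 h2
  have h4 := hC (Bivariate.swap F) (Bivariate.swap G) (swap_BD hF) (swap_BD hG)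
    (swap_isRelPrime hrel) (p.2, p.1) (by rw [ev_swap]; exact h1) (by rw [ev_swap]; exact h2)
  rw [hp_swap, hp_swap] at h4
  simp only at h4
  linarith

end global

end

end Pool.Agent.Helper85.BL
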