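import Pool.Agent.Helper85.BL.EL
import Pool.Agent.Helper29.BL.GoalsA

/-!
# Packet GP of project BL (MP_a41896_nt)
-/

set_option autoImplicit false

namespace Pool.Agent.Helper85.BL

open Polynomial Pool.Agent.Helper29.BL Height Height.AdmissibleAbsValues WeierstrassCurve
open scoped Polynomial.Bivariate

noncomputable section

theorem hp_mono {K : Type} [Field K] [NumberField K] {m n : ℕ} (hmn : m ≤ n) {F : K[X][Y]}
    (hF : BD m F) (h0 : F ≠ 0) : hp n F ≤ hp m F := by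
  have hF' : BD n F := BD.mono hF hmn
  rw [← PS_log_cmax hF' h0, ← PS_log_cmax hF h0]
  refine PS_mono (FS_log_cmax hF' h0) (FS_log_cmax hF h0) fun v => ?_
  refine Real.log_le_log (cmax_pos hF' h0 v) (ciSup_le fun ij => le_cmax hF v _ _)

/-- Packet GP. -/
theorem gp (hT1 : T1) (hTMAP : TMAP) (hTDEG : TDEG) (hHT : HT) (hEL : EL) (hHDX : HDX) : GP := by
  intro K _ _ _ W₁ W₂ m
  obtain ⟨C₁, hC₁0, hC₁⟩ := hHT K W₁ W₂ m
  obtain ⟨C₂, hC₂0, hC₂⟩ := hEL K (8 * m)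
  obtain ⟨C₃, hC₃0, hC₃⟩ := hHDX K m
  refine ⟨C₂ * ((1 + C₁) * (C₃ + 1) + 1), by positivity, ?_⟩
  intro Φ hirr hB S H hH hS hcard u v hu hv huv h1 h2 hnd
  set G := Tr W₁ W₂ m Φ (xc v.1) (xc v.2) with hG
  have hG0 : G ≠ 0 := by
    intro h
    rw [h] at hnd
    exact hnd (dvd_zero Φ)
  have hGB : BD (8 * m) G := hTDEG K W₁ W₂ m Φ _ _ hB
  have hGz : ev G (kap u) = 0 := by
    have h3 := hTMAP.2.2.2 K W₁ W₂ m Φ (xc v.1) (xc v.2) (xc u.1) (xc u.2)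
    exact h3.trans (hT1 K W₁ W₂ m Φ u v hB hu hv huv h2)
  have hΦB : BD (8 * m) Φ := BD.mono hB (by omega)
  have h3 := hC₂ Φ G hΦB hGB (hirr.isRelPrime_iff_not_dvd.2 hnd) (kap u) h1 hGz
  have h4 : hp (8 * m) Φ ≤ hp m Φ := hp_mono (by omega) hB hirr.ne_zero
  have h5 := hC₁ Φ (xc v.1) (xc v.2) hB hG0
  have h6 := hC₃ Φ hirr hB S H hH hS hcard
  have h7 : logHeight₁ (xc v.1) + logHeight₁ (xc v.2) = hh v := rfl
  have h8 : logHeight₁ (kap u).1 + logHeight₁ (kap u).2 = hh u := rfl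
  rw [h8] at h3
  have hv0 : 0 ≤ hh v := hh_nonneg v
  have h9 : 0 ≤ hp m Φ := hp_nonneg m Φ
  have h10 : hp (8 * m) G ≤ C₁ * (hp m Φ + hh v + 1) := by
    rw [← h7]
    refine h5.trans (le_of_eq ?_)
    ring
  have h11 : hp (8 * m) Φ + hp (8 * m) G + 1 ≤ ((1 + C₁) * (C₃ + 1) + 1) * (H + hh v + 1) := by
    have e1 : hp m Φ ≤ C₃ * (H + hh v + 1) := by
      refine h6.trans (mul_le_mul_of_nonneg_left (by linarith) hC₃0)
    have e2 : hp m Φ + hh v + 1 ≤ (C₃ + 1) * (H + hh v + 1) := by nlinarith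
    have e3 : C₁ * (hp m Φ + hh v + 1) ≤ C₁ * ((C₃ + 1) * (H + hh v + 1)) :=
      mul_le_mul_of_nonneg_left e2 hC₁0
    nlinarith
  refine h3.trans ((mul_le_mul_of_nonneg_left h11 hC₂0).trans (le_of_eq ?_))
  ring

end

end Pool.Agent.Helper85.BL
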