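import Pool.Agent.Helper85.BL.EL
import Pool.Agent.Helper29.BL.GoalsA

/-!
# Packet HDX of project BL (MP_a41896_nt)
-/

set_option autoImplicit false

namespace Pool.Agent.Helper85.BL

open Polynomial Pool.Agent.Helper29.BL Height Height.AdmissibleAbsValues
open scoped Polynomial.Bivariate

noncomputable section

/-- The polynomial with given coefficients. -/
def mkq {K : Type} [Field K] (a b : ℕ) (f : Fin (a + 1) × Fin (b + 1) → K) : K[X][Y] :=
  ∑ ij : Fin (a + 1) × Fin (b + 1), monomial (ij.2 : ℕ) (monomial (ij.1 : ℕ) (f ij))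

theorem mkq_coeff {K : Type} [Field K] (a b : ℕ) (f : Fin (a + 1) × Fin (b + 1) → K)
    (ij : Fin (a + 1) × Fin (b + 1)) : ((mkq a b f).coeff ij.2).coeff ij.1 = f ij := by
  unfold mkq
  rw [finsetSum_coeff, finsetSum_coeff]
  rw [Finset.sum_eq_single ij]
  · simp
  · intro c _ hc
    rw [coeff_monomial]
    split_ifs with h1
    · rw [coeff_monomial]
      split_ifs with h2
      · exact absurd (Prod.ext (Fin.ext h2) (Fin.ext h1)) hc
      · rfl
    · simp
  · intro h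
    exact absurd (Finset.mem_univ ij) h

theorem mkq_natDegree {K : Type} [Field K] (a b : ℕ) (f : Fin (a + 1) × Fin (b + 1) → K) :
    (mkq a b f).natDegree ≤ b ∧ ∀ j, ((mkq a b f).coeff j).natDegree ≤ a := by
  constructor
  · refine natDegree_sum_le_of_forall_le _ _ fun ij _ => ?_
    exact (natDegree_monomial_le _).trans (by omega)
  · intro j
    unfold mkq
    rw [finsetSum_coeff]
    refine natDegree_sum_le_of_forall_le _ _ fun ij _ => ?_
    rw [coeff_monomial]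
    split_ifs
    · exact (natDegree_monomial_le _).trans (by omega)
    · simp

theorem mkq_coeff_of_not {K : Type} [Field K] (a b : ℕ) (f : Fin (a + 1) × Fin (b + 1) → K)
    (i j : ℕ) (h : ¬ (i ≤ a ∧ j ≤ b)) : ((mkq a b f).coeff j).coeff i = 0 := by
  by_cases hj : j ≤ b
  · have hi : ¬ i ≤ a := fun hi => h ⟨hi, hj⟩
    exact coeff_eq_zero_of_natDegree_lt
      (((mkq_natDegree a b f).2 j).trans_lt (not_le.1 hi))
  · rw [coeff_eq_zero_of_natDegree_lt (p := mkq a b f)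
      ((mkq_natDegree a b f).1.trans_lt (not_le.1 hj)), coeff_zero]

theorem ev_mkq {K : Type} [Field K] (a b : ℕ) (f : Fin (a + 1) × Fin (b + 1) → K) (p : K × K) :
    ev (mkq a b f) p = ∑ ij, f ij * (p.1 ^ (ij.1 : ℕ) * p.2 ^ (ij.2 : ℕ)) := by
  unfold ev mkq
  rw [evalEval_finsetSum]
  refine Finset.sum_congr rfl fun ij _ => ?_
  rw [evalEval, eval_monomial, ← C_pow, eval_mul, eval_C, eval_monomial]
  ring

theorem ev_eq_sum {K : Type} [Field K] {a b : ℕ} {F : K[X][Y]} (hb : F.natDegree ≤ b)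
    (ha : ∀ j, (F.coeff j).natDegree ≤ a) :
    F = mkq a b fun ij => (F.coeff ij.2).coeff ij.1 := by
  ext j i
  by_cases h : i ≤ a ∧ j ≤ b
  · rw [mkq_coeff a b (fun ij => (F.coeff ij.2).coeff ij.1)
      (⟨i, Nat.lt_succ_of_le h.1⟩, ⟨j, Nat.lt_succ_of_le h.2⟩)]
  · rw [mkq_coeff_of_not a b _ i j h]
    by_cases hj : j ≤ b
    · have hi : ¬ i ≤ a := fun hi => h ⟨hi, hj⟩
      exact coeff_eq_zero_of_natDegree_lt ((ha j).trans_lt (not_le.1 hi))
    · rw [coeff_eq_zero_of_natDegree_lt (p := F) (hb.trans_lt (not_le.1 hj)), coeff_zero]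

section

variable {K : Type} [Field K] [NumberField K]

theorem hp_mkq_le {m a b : ℕ} {f : Fin (a + 1) × Fin (b + 1) → K} (hf : f ≠ 0)
    (hB : BD m (mkq a b f)) : hp m (mkq a b f) ≤ logHeight f := by
  have h0 : mkq a b f ≠ 0 := by
    intro h
    apply hf
    ext ij
    rw [← mkq_coeff a b f ij, h]
    simp
  rw [← PS_log_cmax hB h0, ← PS_log_iSup hf]
  refine PS_mono (FS_log_cmax hB h0) (FS_log_iSup hf) fun v => ?_
  refine Real.log_le_log (cmax_pos hB h0 v) ?_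
  refine ciSup_le fun ij => ?_
  by_cases h : (ij.1 : ℕ) ≤ a ∧ (ij.2 : ℕ) ≤ b
  · have h1 := mkq_coeff a b f (⟨ij.1, Nat.lt_succ_of_le h.1⟩, ⟨ij.2, Nat.lt_succ_of_le h.2⟩)
    simp only at h1
    rw [h1]
    exact le_ciSup (f := fun ij => v (f ij)) (Set.finite_range _).bddAbove _
  · rw [mkq_coeff_of_not a b f _ _ h, v.map_zero]
    exact (iSup_abv_pos v hf).le

/-- the vector of monomials -/
def mono (a b : ℕ) (p : K × K) (ij : Fin (a + 1) × Fin (b + 1)) : K :=
  p.1 ^ (ij.1 : ℕ) * p.2 ^ (ij.2 : ℕ)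

theorem logHeight_mono {m a b : ℕ} (ha : a ≤ m) (hb : b ≤ m) (p : K × K) :
    logHeight (mono a b p) ≤ m * (logHeight₁ p.1 + logHeight₁ p.2) := by
  have h0 : mono a b p ≠ 0 := by
    intro h
    have := congrFun h (0, 0)
    simp [mono] at this
  rw [← PS_log_iSup h0, ← PS_log_Mv p.1, ← PS_log_Mv p.2, mul_add, ← PS_const_mul, ← PS_const_mul,
    ← PS_add ((FS_log_Mv p.1).const_mul _) ((FS_log_Mv p.2).const_mul _)]
  refine PS_mono (FS_log_iSup h0) (((FS_log_Mv p.1).const_mul _).add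
    ((FS_log_Mv p.2).const_mul _)) fun v => ?_
  rw [← Real.log_pow, ← Real.log_pow, ← Real.log_mul (pow_pos (Mv_pos v _) _).ne'
    (pow_pos (Mv_pos v _) _).ne']
  refine Real.log_le_log (iSup_abv_pos v h0) (ciSup_le fun ij => ?_)
  unfold mono
  rw [v.map_mul, v.map_pow, v.map_pow]
  have h1 : v p.1 ^ (ij.1 : ℕ) ≤ Mv v p.1 ^ m :=
    (pow_le_pow_left₀ (v.nonneg _) (le_Mv v _) _).trans
      (pow_le_pow_right₀ (one_le_Mv v _) (by omega))
  have h2 : v p.2 ^ (ij.2 : ℕ) ≤ Mv v p.2 ^ m :=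
    (pow_le_pow_left₀ (v.nonneg _) (le_Mv v _) _).trans
      (pow_le_pow_right₀ (one_le_Mv v _) (by omega))
  exact mul_le_mul h1 h2 (pow_nonneg (v.nonneg _) _) (pow_nonneg (Mv_pos v _).le _)

theorem hp_smul (m : ℕ) (F : K[X][Y]) {c : K} (hc : c ≠ 0) : hp m (c • F) = hp m F := by
  unfold hp
  have h := logHeight_smul_eq_logHeight (K := K)
    (fun ij : Fin (m + 1) × Fin (m + 1) => (F.coeff ij.2).coeff ij.1) hc
  rw [← h]
  congr 1

/-- Packet HDX. -/
theorem hdx (hCR : CR) : HDX := by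
  classical
  intro K _ _ m
  have hC : ∀ ab : ℕ × ℕ, ∃ C : ℝ, 0 ≤ C ∧
    ∀ (ι : Type) (e : ι → (Fin (ab.1 + 1) × Fin (ab.2 + 1)) → K) (H : ℝ), 0 ≤ H →
      (∀ i, logHeight (e i) ≤ H) →
      ∀ (w f₀ : (Fin (ab.1 + 1) × Fin (ab.2 + 1)) → K), (∀ i, ∑ j, f₀ j * e i j = 0) →
      ∑ j, f₀ j * w j ≠ 0 →
      ∃ f : (Fin (ab.1 + 1) × Fin (ab.2 + 1)) → K, (∀ i, ∑ j, f j * e i j = 0) ∧
        ∑ j, f j * w j ≠ 0 ∧ logHeight f ≤ C * (1 + H) := fun ab => hCR K _
  choose Cf hCf0 hCf using hC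
  set s : Finset (ℕ × ℕ) := Finset.range (m + 1) ×ˢ Finset.range (m + 1) with hs
  set C₀ : ℝ := ∑ ab ∈ s, Cf ab with hC₀
  have hC₀0 : 0 ≤ C₀ := Finset.sum_nonneg fun ab _ => hCf0 ab
  have hle : ∀ a b : ℕ, a ≤ m → b ≤ m → Cf (a, b) ≤ C₀ := by
    intro a b ha hb
    exact Finset.single_le_sum (f := Cf) (fun ab _ => hCf0 ab)
      (Finset.mem_product.2 ⟨Finset.mem_range.2 (by omega), Finset.mem_range.2 (by omega)⟩)
  refine ⟨C₀ * (1 + m), by positivity, fun Φ hirr hB S H hH hS hcard => ?_⟩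
  have hΦ0 := hirr.ne_zero
  have hBi := BD_iff.1 hB
  set a := (Bivariate.swap Φ).natDegree with ha
  set b := Φ.natDegree with hb
  have hcoef : ∀ j, (Φ.coeff j).natDegree ≤ a := by
    intro j
    rw [natDegree_le_iff_coeff_eq_zero]
    intro i hi
    rw [← coeff_swap, coeff_eq_zero_of_natDegree_lt hi, coeff_zero]
  set f₀ : Fin (a + 1) × Fin (b + 1) → K := fun ij => (Φ.coeff ij.2).coeff ij.1 with hf₀
  have hΦ : Φ = mkq a b f₀ := ev_eq_sum le_rfl hcoef
  have hf₀0 : f₀ ≠ 0 := by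
    intro h
    apply hΦ0
    rw [hΦ, h]
    unfold mkq
    simp
  obtain ⟨ij₀, hij₀⟩ := Function.ne_iff.1 hf₀0
  obtain ⟨f, hf1, hf2, hf3⟩ := hCf (a, b) S (fun p => mono a b (p : K × K)) (m * H)
    (by positivity)
    (fun p => (logHeight_mono hBi.2 hBi.1 (p : K × K)).trans
      (mul_le_mul_of_nonneg_left (hS p p.2).1 (Nat.cast_nonneg m)))
    (Pi.single ij₀ 1) f₀
    (fun p => by
      have h1 := (hS p p.2).2
      rw [hΦ, ev_mkq] at h1
      exact h1)
    (by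
      rw [Finset.sum_eq_single ij₀]
      · rw [Pi.single_eq_same, mul_one]
        exact hij₀
      · intro c _ hc
        rw [Pi.single_eq_of_ne hc, mul_zero]
      · intro h
        exact absurd (Finset.mem_univ _) h)
  have hf0 : f ≠ 0 := by
    intro h
    apply hf2
    rw [h]
    simp
  set G := mkq a b f with hG
  have hG0 : G ≠ 0 := by
    intro h
    apply hf0
    ext ij
    rw [← mkq_coeff a b f ij, ← hG, h]
    simp
  have hGd := mkq_natDegree a b f
  have hGB : BD m G := ⟨hGd.1.trans hBi.1, fun j => (hGd.2 j).trans hBi.2⟩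
  have hGz : ∀ p ∈ S, ev G p = 0 := by
    intro p hp
    rw [hG, ev_mkq]
    exact hf1 ⟨p, hp⟩
  have hdvd : Φ ∣ G := by
    by_contra hnd
    have h1 := bz K m Φ G hB hGB (hirr.isRelPrime_iff_not_dvd.2 hnd) S
      fun p hp => ⟨(hS p hp).2, hGz p hp⟩
    omega
  obtain ⟨Q, hQ⟩ := hdvd
  have hQ0 : Q ≠ 0 := by
    rintro rfl
    exact hG0 (by rw [hQ, mul_zero])
  have hdt : dt G ≤ a + b := by
    unfold dt
    have h1 : (Bivariate.swap G).natDegree ≤ a := by
      rw [natDegree_le_iff_coeff_eq_zero]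
      intro i hi
      ext j
      rw [coeff_swap, coeff_zero]
      exact coeff_eq_zero_of_natDegree_lt ((hGd.2 j).trans_lt hi)
    have h2 : G.natDegree ≤ b := hGd.1
    exact (Nat.add_le_add h2 h1).trans (le_of_eq (add_comm _ _))
  rw [hQ, dt_mul hΦ0 hQ0] at hdt
  have hdtΦ : dt Φ = b + a := rfl
  have hdtQ : dt Q = 0 := by omega
  have hQc : ∃ c : K, Q = C (C c) := by
    unfold dt at hdtQ
    obtain ⟨q, hq⟩ := natDegree_eq_zero.1 (show Q.natDegree = 0 by omega)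
    have h2 : (Bivariate.swap Q).natDegree = 0 := by omega
    rw [← hq, Bivariate.swap_C, natDegree_map_eq_of_injective C_injective] at h2
    obtain ⟨c, hc⟩ := natDegree_eq_zero.1 h2
    exact ⟨c, by rw [← hq, ← hc]⟩
  obtain ⟨c, hc⟩ := hQc
  have hc0 : c ≠ 0 := by
    rintro rfl
    apply hQ0
    rw [hc]
    simp
  have hGc : G = c • Φ := by
    rw [hQ, hc, mul_comm]
    ext j i
    simp only [coeff_C_mul, coeff_smul, smul_eq_mul]
  have h1 : hp m Φ = hp m G := by rw [hGc, hp_smul m Φ hc0]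
  have h2 : hp m G ≤ logHeight f := hp_mkq_le hf0 hGB
  have h3 : Cf (a, b) ≤ C₀ := hle a b hBi.2 hBi.1
  rw [h1]
  calc hp m G ≤ Cf (a, b) * (1 + m * H) := h2.trans hf3
    _ ≤ C₀ * (1 + m * H) := mul_le_mul_of_nonneg_right h3 (by positivity)
    _ ≤ C₀ * ((1 + m) * (1 + H)) := by
        refine mul_le_mul_of_nonneg_left ?_ hC₀0
        have : (0 : ℝ) ≤ m := Nat.cast_nonneg m
        nlinarith
    _ = C₀ * (1 + m) * (1 + H) := by ring

end

end

end Pool.Agent.Helper85.BL
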