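import Pool.Agent.Helper85.BL.SLa

/-!
# Packet SL of project BL (MP_a41896_nt)
-/

set_option autoImplicit false

namespace Pool.Agent.Helper85.BL

open Polynomial Pool.Agent.Helper29.BL
open scoped Polynomial.Bivariate

noncomputable section

variable {k : Type} [Field k]

theorem BD_lin (a : k) : BD 1 (C (X - C a) : k[X][Y]) := by
  refine ⟨by rw [natDegree_C]; omega, fun j => ?_⟩
  rw [coeff_C]
  split_ifs
  · rw [natDegree_X_sub_C]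
  · rw [natDegree_zero]; omega

theorem ev_lin (a : k) (p : k × k) : ev (C (X - C a) : k[X][Y]) p = p.1 - a := by
  unfold ev
  rw [evalEval_C, eval_sub, eval_X, eval_C]

theorem exists_lin (s : Finset (k × k)) (w : k × k) (h : ∀ p ∈ s, p.1 ≠ w.1) :
    ∃ F : k[X][Y], BD s.card F ∧ ev F w ≠ 0 ∧ ∀ p ∈ s, ev F p = 0 := by
  classical
  induction s using Finset.induction_on with
  | empty => exact ⟨1, BD_one _, by rw [ev_one]; exact one_ne_zero, by simp⟩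
  | insert a s ha ih =>
    obtain ⟨F, hF, hFw, hFs⟩ := ih fun p hp => h p (Finset.mem_insert_of_mem hp)
    refine ⟨F * C (X - C a.1), ?_, ?_, ?_⟩
    · rw [Finset.card_insert_of_notMem ha]
      exact BD.mul hF (BD_lin a.1)
    · rw [ev_mul, ev_lin]
      exact mul_ne_zero hFw (sub_ne_zero.2 (h a (Finset.mem_insert_self a s)).symm)
    · intro p hp
      rw [ev_mul]
      rcases Finset.mem_insert.1 hp with rfl | hp
      · rw [ev_lin, sub_self, mul_zero]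
      · rw [hFs p hp, zero_mul]

/-- The elements of `BD m` vanishing on `Ξ`. -/
def VV (m : ℕ) (Ξ : Finset (k × k)) : Submodule k k[X][Y] where
  carrier := {F | BD m F ∧ ∀ p ∈ Ξ, ev F p = 0}
  zero_mem' := ⟨BD_zero m, fun p _ => by unfold ev; exact evalEval_zero _ _⟩
  add_mem' := by
    rintro F G ⟨hF, hF'⟩ ⟨hG, hG'⟩
    exact ⟨BD.add hF hG, fun p hp => by rw [ev_add, hF' p hp, hG' p hp, add_zero]⟩
  smul_mem' := by
    rintro c F ⟨hF, hF'⟩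
    exact ⟨BD.smul hF c, fun p hp => by rw [ev_smul, hF' p hp, mul_zero]⟩

open Classical in
theorem sl_core (hLS : LS) [Infinite k] (τ : ℝ) (hτ : 0 < τ) (m M0 : ℕ)
    (hm1 : 1 ≤ m) (hM1 : 1 ≤ M0) (hm : 8 ≤ τ * m) (hM0 : 8 * (m : ℝ) ≤ τ * M0)
    (w : k × k) (Ξ : Finset (k × k)) (hw : ∀ p ∈ Ξ, p.1 ≠ w.1) (hIP : IP τ w Ξ)
    (hn1 : 4 ≤ τ * (Ξ.card : ℝ))
    (hn2 : 4 * (2 * (m : ℝ) ^ 3 + 2 * m * M0) < τ * (Ξ.card : ℝ)) :
    ∃ Φ : k[X][Y], Irreducible Φ ∧ BD m Φ ∧ ev Φ w = 0 ∧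
      τ / (8 * m) * (Ξ.card : ℝ) ≤ ((Ξ.filter (fun p => ev Φ p = 0)).card : ℝ) := by
  by_contra hcon
  push Not at hcon
  have hmpos : (0 : ℝ) < m := by exact_mod_cast hm1
  have hM0pos : (0 : ℝ) < M0 := by exact_mod_cast hM1
  have hnn : (0 : ℝ) ≤ Ξ.card := Nat.cast_nonneg _
  obtain ⟨Ξ', hΞ', a, FA, hFA, hFAw, hFAz, hac, hamax⟩ :=
    peel w m M0 hM1 Irreducible Ξ.card Ξ rfl
  obtain ⟨Ξ₁, hΞ₁, b, FB, hFB, hFBw, hFBz, hbc, hbmax⟩ :=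
    peel w m (m ^ 2) (Nat.one_le_pow _ _ hm1) (fun _ => True) Ξ'.card Ξ' rfl
  obtain ⟨FC, hFC, hFCw, hFCz⟩ := exists_lin Ξ₁ w fun p hp => hw p (hΞ' (hΞ₁ hp))
  have hIP' := hIP Ξ subset_rfl (a * m + b * m + Ξ₁.card) (FA * FB * FC)
    (BD.mul (BD.mul hFA hFB) hFC)
    (by
      intro p hp
      rw [ev_mul, ev_mul]
      by_cases h1 : p ∈ Ξ'
      · by_cases h2 : p ∈ Ξ₁
        · rw [hFCz p h2, mul_zero]
        · rw [hFBz p h1 h2, mul_zero, zero_mul]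
      · rw [hFAz p hp h1, zero_mul, zero_mul])
    (by
      rw [ev_mul, ev_mul]
      exact mul_ne_zero (mul_ne_zero hFAw hFBw) hFCw)
  push_cast at hIP'
  have hb' : b * m ^ 2 ≤ Ξ.card := by
    have := Finset.card_le_card hΞ'
    omega
  have ha' : a * M0 ≤ Ξ.card := by omega
  have ha'' : (a : ℝ) * M0 ≤ Ξ.card := by exact_mod_cast ha'
  have hb'' : (b : ℝ) * m ^ 2 ≤ Ξ.card := by exact_mod_cast hb'
  have hann : (0 : ℝ) ≤ a := Nat.cast_nonneg _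
  have hbnn : (0 : ℝ) ≤ b := Nat.cast_nonneg _
  -- `a m ≤ τ n / 8`
  have h1 : (a : ℝ) * m ≤ τ * Ξ.card / 8 := by
    have : (a : ℝ) * (8 * m) ≤ a * (τ * M0) := mul_le_mul_of_nonneg_left hM0 hann
    have h2 : τ * (a * M0) ≤ τ * Ξ.card := mul_le_mul_of_nonneg_left ha'' hτ.le
    nlinarith
  have h2 : (b : ℝ) * m ≤ τ * Ξ.card / 8 := by
    have h3 : (b : ℝ) * m * 8 ≤ b * m * (τ * m) := mul_le_mul_of_nonneg_left hm (by positivity)
    have h4 : τ * (b * m ^ 2) ≤ τ * Ξ.card := mul_le_mul_of_nonneg_left hb'' hτ.le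
    nlinarith
  have h3 : τ * Ξ.card / 2 ≤ Ξ₁.card := by linarith
  obtain ⟨G, hG0, hGB, hGz⟩ := exists_vanish' m hm1 w Ξ₁
    (fun G hG hGw U hU hGU => hbmax G trivial hG hGw U hU hGU)
  obtain ⟨D, hD0, hDB, -, hDs⟩ := hLS k m (VV m Ξ₁)
    (fun h => hG0 (by
      have hmem : G ∈ VV m Ξ₁ := ⟨hGB, hGz⟩
      rw [h] at hmem
      exact (Submodule.mem_bot k).1 hmem))
    (fun F hF => hF.1)
  obtain ⟨P, hPc, hPirr, hPz⟩ := exists_factors hD0 hDB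
  -- covering of `Ξ₁`
  have hcov : Ξ₁ ⊆ (Ξ₁.filter fun p => ev D p ≠ 0) ∪
      P.biUnion (fun φ => Ξ₁.filter fun p => ev φ p = 0) := by
    intro p hp
    by_cases h : ev D p = 0
    · obtain ⟨φ, hφ, hφp⟩ := hPz p h
      exact Finset.mem_union_right _ (Finset.mem_biUnion.2 ⟨φ, hφ, Finset.mem_filter.2 ⟨hp, hφp⟩⟩)
    · exact Finset.mem_union_left _ (Finset.mem_filter.2 ⟨hp, h⟩)
  have hc1 : (Ξ₁.filter fun p => ev D p ≠ 0).card ≤ 2 * m ^ 3 := by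
    refine hDs _ fun p hp => ?_
    rw [Finset.mem_filter] at hp
    exact ⟨fun F hF => hF.2 p hp.1, hp.2⟩
  have hc2 : ∀ φ ∈ P, ((Ξ₁.filter fun p => ev φ p = 0).card : ℝ) ≤
      M0 + τ / (8 * m) * Ξ.card := by
    intro φ hφ
    obtain ⟨hirr, hB⟩ := hPirr φ hφ
    by_cases h : ev φ w = 0
    · have h4 := hcon φ hirr hB h
      have h5 : (Ξ₁.filter fun p => ev φ p = 0).card ≤ (Ξ.filter fun p => ev φ p = 0).card :=
        Finset.card_le_card (Finset.filter_subset_filter _ (hΞ₁.trans hΞ'))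
      have h6 : ((Ξ₁.filter fun p => ev φ p = 0).card : ℝ) ≤
        ((Ξ.filter fun p => ev φ p = 0).card : ℝ) := by exact_mod_cast h5
      linarith
    · have h4 := hamax φ hirr hB h (Ξ₁.filter fun p => ev φ p = 0)
        ((Finset.filter_subset _ _).trans hΞ₁) (fun p hp => (Finset.mem_filter.1 hp).2)
      have h5 : ((Ξ₁.filter fun p => ev φ p = 0).card : ℝ) ≤ M0 := by exact_mod_cast h4.le
      have h6 : 0 ≤ τ / (8 * m) * (Ξ.card : ℝ) := by positivity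
      linarith
  have hc3 : (Ξ₁.card : ℝ) ≤ 2 * m ^ 3 + P.card * (M0 + τ / (8 * m) * Ξ.card) := by
    have h4 : Ξ₁.card ≤ (Ξ₁.filter fun p => ev D p ≠ 0).card +
        ∑ φ ∈ P, (Ξ₁.filter fun p => ev φ p = 0).card :=
      (Finset.card_le_card hcov).trans ((Finset.card_union_le _ _).trans
        (Nat.add_le_add_left Finset.card_biUnion_le _))
    have h5 : (Ξ₁.card : ℝ) ≤ ((Ξ₁.filter fun p => ev D p ≠ 0).card : ℝ) +
        ∑ φ ∈ P, ((Ξ₁.filter fun p => ev φ p = 0).card : ℝ) := by exact_mod_cast h4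
    have h6 : ∑ φ ∈ P, ((Ξ₁.filter fun p => ev φ p = 0).card : ℝ) ≤
        P.card * (M0 + τ / (8 * m) * Ξ.card) := by
      refine (Finset.sum_le_sum hc2).trans ?_
      rw [Finset.sum_const, nsmul_eq_mul]
    have h7 : ((Ξ₁.filter fun p => ev D p ≠ 0).card : ℝ) ≤ 2 * m ^ 3 := by exact_mod_cast hc1
    linarith
  have hPc' : (P.card : ℝ) ≤ 2 * m := by exact_mod_cast hPc
  have hc4 : (P.card : ℝ) * (M0 + τ / (8 * m) * Ξ.card) ≤
      2 * m * (M0 + τ / (8 * m) * Ξ.card) :=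
    mul_le_mul_of_nonneg_right hPc' (by positivity)
  have hc5 : 2 * (m : ℝ) * (M0 + τ / (8 * m) * Ξ.card) = 2 * m * M0 + τ * Ξ.card / 4 := by
    field_simp
    ring
  nlinarith

/-- Packet SL. -/
theorem sl (hLS : LS) : SL := by
  intro τ hτ _
  have hτ0 : 0 < τ := hτ
  refine ⟨⌈8 / τ⌉₊, τ / (8 * (⌈8 / τ⌉₊ : ℕ)),
    ⌈4 / τ⌉₊ + ⌈4 * (2 * ((⌈8 / τ⌉₊ : ℕ) : ℝ) ^ 3 +
      2 * (⌈8 / τ⌉₊ : ℕ) * (⌈8 * ((⌈8 / τ⌉₊ : ℕ) : ℝ) / τ⌉₊ : ℕ)) / τ⌉₊ + 1, ?_, ?_⟩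
  · have : 0 < ⌈8 / τ⌉₊ := Nat.ceil_pos.2 (by positivity)
    have : (0 : ℝ) < (⌈8 / τ⌉₊ : ℕ) := by exact_mod_cast this
    positivity
  · intro k _ _ w Ξ hw hIP hR
    set m := ⌈8 / τ⌉₊ with hmdef
    set M0 := ⌈8 * (m : ℝ) / τ⌉₊ with hM0def
    have hmp : 0 < m := Nat.ceil_pos.2 (by positivity)
    have hmp' : (0 : ℝ) < m := by exact_mod_cast hmp
    have hMp : 0 < M0 := Nat.ceil_pos.2 (by positivity)
    have hm : 8 ≤ τ * m := by
      have := Nat.le_ceil (8 / τ)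
      rw [div_le_iff₀ hτ0] at this
      linarith
    have hM : 8 * (m : ℝ) ≤ τ * M0 := by
      have := Nat.le_ceil (8 * (m : ℝ) / τ)
      rw [div_le_iff₀ hτ0] at this
      linarith
    have hR' : ((⌈4 / τ⌉₊ : ℕ) : ℝ) + (⌈4 * (2 * (m : ℝ) ^ 3 + 2 * m * M0) / τ⌉₊ : ℕ) + 1 ≤
        Ξ.card := by exact_mod_cast hR
    have e1 := Nat.le_ceil (4 / τ)
    have e2 := Nat.le_ceil (4 * (2 * (m : ℝ) ^ 3 + 2 * m * M0) / τ)
    have p1 : (0 : ℝ) ≤ (⌈4 / τ⌉₊ : ℕ) := Nat.cast_nonneg _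
    have p2 : (0 : ℝ) ≤ (⌈4 * (2 * (m : ℝ) ^ 3 + 2 * m * M0) / τ⌉₊ : ℕ) := Nat.cast_nonneg _
    refine sl_core hLS τ hτ0 m M0 hmp hMp hm hM w Ξ hw hIP ?_ ?_
    · have : 4 / τ ≤ Ξ.card := by linarith
      rw [div_le_iff₀ hτ0] at this
      linarith
    · have : 4 * (2 * (m : ℝ) ^ 3 + 2 * m * M0) / τ < Ξ.card := by linarith
      rw [div_lt_iff₀ hτ0] at this
      linarith

end

end Pool.Agent.Helper85.BL
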