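import Pool.Agent.Helper85.BL.SL

/-!
# Packet ST of project BL (MP_a41896_nt)
-/

set_option autoImplicit false

namespace Pool.Agent.Helper85.BL

open Polynomial Pool.Agent.Helper29.BL
open scoped Polynomial.Bivariate

noncomputable section

variable {k : Type} [Field k]

theorem IP_mono {τ : ℝ} {w : k × k} {Ξ Ξ₀ : Finset (k × k)} (h : IP τ w Ξ) (h0 : Ξ₀ ⊆ Ξ) :
    IP τ w Ξ₀ := fun Ξ' hΞ' => h Ξ' (hΞ'.trans h0)

open Classical in
/-- Families of pairwise non-associated irreducible curves through `w` with many zeros. -/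
def Fam (m M2 : ℕ) (w : k × k) (Ξ : Finset (k × k)) (P : Finset k[X][Y]) : Prop :=
  (∀ Φ ∈ P, Irreducible Φ ∧ BD m Φ ∧ ev Φ w = 0 ∧
    M2 ≤ (Ξ.filter fun p => ev Φ p = 0).card) ∧
  ∀ Φ ∈ P, ∀ Ψ ∈ P, Φ ≠ Ψ → ¬ Associated Φ Ψ

theorem inter_le (hBZ : BZ) {m : ℕ} {Φ Ψ : k[X][Y]} (hΦ : Irreducible Φ) (hΨ : Irreducible Ψ)
    (hΦB : BD m Φ) (hΨB : BD m Ψ) (h : ¬ Associated Φ Ψ) (s : Finset (k × k))
    (hs : ∀ p ∈ s, ev Φ p = 0 ∧ ev Ψ p = 0) : s.card ≤ 2 * m ^ 3 := by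
  refine hBZ k m Φ Ψ hΦB hΨB ?_ s hs
  rw [hΦ.isRelPrime_iff_not_dvd, hΦ.dvd_irreducible_iff_associated hΨ]
  exact h

open Classical in
theorem fam_card (hBZ : BZ) [Infinite k] (τ c : ℝ) (hc : 0 < c) (m R t M2 : ℕ)
    (hSL : ∀ (w : k × k) (Ξ : Finset (k × k)),
      (∀ p ∈ Ξ, p.1 ≠ w.1) → IP τ w Ξ → R ≤ Ξ.card →
      ∃ Φ : k[X][Y], Irreducible Φ ∧ BD m Φ ∧ ev Φ w = 0 ∧
        c * (Ξ.card : ℝ) ≤ ((Ξ.filter (fun p => ev Φ p = 0)).card : ℝ))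
    (ht : 2 ≤ c * t) (hM2 : 3 * t * (2 * m ^ 3) + 1 ≤ M2) (hM2R : R ≤ M2)
    (w : k × k) (Ξ : Finset (k × k)) (hw : ∀ p ∈ Ξ, p.1 ≠ w.1) (hIP : IP τ w Ξ)
    (P : Finset k[X][Y]) (hP : Fam m M2 w Ξ P) : P.card ≠ t := by
  intro hPt
  have ht0 : 0 < t := by
    rcases Nat.eq_zero_or_pos t with h | h
    · rw [h] at ht
      norm_num at ht
    · exact h
  have hZ : ∀ Φ : k[X][Y], ∃ Z : Finset (k × k), Φ ∈ P →
      Z ⊆ (Ξ.filter fun p => ev Φ p = 0) ∧ Z.card = M2 := by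
    intro Φ
    by_cases h : Φ ∈ P
    · obtain ⟨Z, hZ, hZc⟩ := Finset.exists_subset_card_eq (hP.1 Φ h).2.2.2
      exact ⟨Z, fun _ => ⟨hZ, hZc⟩⟩
    · exact ⟨∅, fun h' => absurd h' h⟩
  choose Z hZ using hZ
  have hZs : ∀ Φ ∈ P, Z Φ ⊆ Ξ := fun Φ h => (hZ Φ h).1.trans (Finset.filter_subset _ _)
  have hZz : ∀ Φ ∈ P, ∀ p ∈ Z Φ, ev Φ p = 0 := fun Φ h p hp =>
    (Finset.mem_filter.1 ((hZ Φ h).1 hp)).2
  set B : ℕ := 2 * m ^ 3 with hB
  let Z' : k[X][Y] → Finset (k × k) := fun Φ => (Z Φ).filter fun p => ∀ Ψ ∈ P, Ψ ≠ Φ → p ∉ Z Ψ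
  have hZ'card : ∀ Φ ∈ P, M2 ≤ (Z' Φ).card + t * B := by
    intro Φ hΦ
    have hcov : Z Φ ⊆ Z' Φ ∪ (P.erase Φ).biUnion fun Ψ => Z Φ ∩ Z Ψ := by
      intro p hp
      by_cases h : ∀ Ψ ∈ P, Ψ ≠ Φ → p ∉ Z Ψ
      · exact Finset.mem_union_left _ (Finset.mem_filter.2 ⟨hp, h⟩)
      · push Not at h
        obtain ⟨Ψ, hΨ, hne, hpΨ⟩ := h
        exact Finset.mem_union_right _ (Finset.mem_biUnion.2
          ⟨Ψ, Finset.mem_erase.2 ⟨hne, hΨ⟩, Finset.mem_inter.2 ⟨hp, hpΨ⟩⟩)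
    have h1 : ((P.erase Φ).biUnion fun Ψ => Z Φ ∩ Z Ψ).card ≤ (P.erase Φ).card * B := by
      refine Finset.card_biUnion_le_card_mul _ _ _ fun Ψ hΨ => ?_
      rw [Finset.mem_erase] at hΨ
      refine inter_le hBZ (hP.1 Φ hΦ).1 (hP.1 Ψ hΨ.2).1 (hP.1 Φ hΦ).2.1 (hP.1 Ψ hΨ.2).2.1
        (hP.2 Φ hΦ Ψ hΨ.2 hΨ.1.symm) _ fun p hp => ?_
      rw [Finset.mem_inter] at hp
      exact ⟨hZz Φ hΦ p hp.1, hZz Ψ hΨ.2 p hp.2⟩
    have h2 : (P.erase Φ).card * B ≤ t * B := by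
      refine Nat.mul_le_mul_right _ ?_
      rw [← hPt]
      exact Finset.card_le_card (Finset.erase_subset _ _)
    have h3 := Finset.card_le_card hcov
    have h4 := Finset.card_union_le (Z' Φ) ((P.erase Φ).biUnion fun Ψ => Z Φ ∩ Z Ψ)
    rw [(hZ Φ hΦ).2] at h3
    omega
  have hZ'sub : P.biUnion Z' ⊆ P.biUnion Z := by
    intro p hp
    obtain ⟨Φ, hΦ, hp⟩ := Finset.mem_biUnion.1 hp
    exact Finset.mem_biUnion.2 ⟨Φ, hΦ, (Finset.mem_filter.1 hp).1⟩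
  have hdisj : (P.biUnion Z').card = ∑ Φ ∈ P, (Z' Φ).card := by
    refine Finset.card_biUnion ?_
    intro Φ hΦ Ψ hΨ hne
    change Disjoint (Z' Φ) (Z' Ψ)
    rw [Finset.disjoint_left]
    intro p hp hp'
    exact (Finset.mem_filter.1 hp).2 Ψ hΨ hne.symm (Finset.mem_filter.1 hp').1
  have hlow : t * M2 ≤ (P.biUnion Z).card + t * (t * B) := by
    have h1 : ∑ Φ ∈ P, M2 ≤ ∑ Φ ∈ P, ((Z' Φ).card + t * B) := Finset.sum_le_sum hZ'card
    rw [Finset.sum_add_distrib, Finset.sum_const, Finset.sum_const, hPt, smul_eq_mul,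
      smul_eq_mul, ← hdisj] at h1
    have h2 := Finset.card_le_card hZ'sub
    omega
  have hsub : P.biUnion Z ⊆ Ξ := by
    intro p hp
    obtain ⟨Φ, hΦ, hp⟩ := Finset.mem_biUnion.1 hp
    exact hZs Φ hΦ hp
  have hR : R ≤ (P.biUnion Z).card := by
    obtain ⟨Φ, hΦ⟩ : P.Nonempty := by
      rw [← Finset.card_pos, hPt]
      exact ht0
    have h1 : Z Φ ⊆ P.biUnion Z := Finset.subset_biUnion_of_mem Z hΦ
    have h2 := Finset.card_le_card h1
    rw [(hZ Φ hΦ).2] at h2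
    exact hM2R.trans h2
  obtain ⟨Φ', hirr, hBD, -, hΦ'⟩ := hSL w (P.biUnion Z) (fun p hp => hw p (hsub hp))
    (IP_mono hIP hsub) hR
  -- upper bound
  have hup : ((P.biUnion Z).filter fun p => ev Φ' p = 0).card ≤ M2 + t * B := by
    have hcov : ((P.biUnion Z).filter fun p => ev Φ' p = 0) ⊆
        ((P.filter fun Φ => Associated Φ Φ').biUnion Z) ∪
          ((P.filter fun Φ => ¬ Associated Φ Φ').biUnion fun Φ => (Z Φ).filter
            fun p => ev Φ' p = 0) := by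
      intro p hp
      obtain ⟨hp, hp0⟩ := Finset.mem_filter.1 hp
      obtain ⟨Φ, hΦ, hp⟩ := Finset.mem_biUnion.1 hp
      by_cases h : Associated Φ Φ'
      · exact Finset.mem_union_left _ (Finset.mem_biUnion.2
          ⟨Φ, Finset.mem_filter.2 ⟨hΦ, h⟩, hp⟩)
      · exact Finset.mem_union_right _ (Finset.mem_biUnion.2
          ⟨Φ, Finset.mem_filter.2 ⟨hΦ, h⟩, Finset.mem_filter.2 ⟨hp, hp0⟩⟩)
    have h1 : ((P.filter fun Φ => Associated Φ Φ').biUnion Z).card ≤ 1 * M2 := by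
      refine (Finset.card_biUnion_le_card_mul _ _ M2 fun Φ hΦ => ?_).trans
        (Nat.mul_le_mul_right _ ?_)
      · rw [(hZ Φ (Finset.mem_filter.1 hΦ).1).2]
      · rw [Finset.card_le_one]
        intro Φ hΦ Ψ hΨ
        obtain ⟨hΦ, hΦa⟩ := Finset.mem_filter.1 hΦ
        obtain ⟨hΨ, hΨa⟩ := Finset.mem_filter.1 hΨ
        by_contra hne
        exact hP.2 Φ hΦ Ψ hΨ hne (hΦa.trans hΨa.symm)
    have h2 : ((P.filter fun Φ => ¬ Associated Φ Φ').biUnion fun Φ => (Z Φ).filter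
            fun p => ev Φ' p = 0).card ≤ t * B := by
      refine (Finset.card_biUnion_le_card_mul _ _ B fun Φ hΦ => ?_).trans
        (Nat.mul_le_mul_right _ ?_)
      · obtain ⟨hΦ, hΦa⟩ := Finset.mem_filter.1 hΦ
        refine inter_le hBZ (hP.1 Φ hΦ).1 hirr (hP.1 Φ hΦ).2.1 hBD hΦa _ fun p hp => ?_
        rw [Finset.mem_filter] at hp
        exact ⟨hZz Φ hΦ p hp.1, hp.2⟩
      · rw [← hPt]
        exact Finset.card_le_card (Finset.filter_subset _ _)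
    have h3 := Finset.card_le_card hcov
    have h4 := Finset.card_union_le ((P.filter fun Φ => Associated Φ Φ').biUnion Z)
      ((P.filter fun Φ => ¬ Associated Φ Φ').biUnion fun Φ => (Z Φ).filter
            fun p => ev Φ' p = 0)
    omega
  -- contradiction
  have e1 : (t : ℝ) * M2 ≤ ((P.biUnion Z).card : ℝ) + t * (t * B) := by exact_mod_cast hlow
  have e2 : (((P.biUnion Z).filter fun p => ev Φ' p = 0).card : ℝ) ≤ M2 + t * B := by
    exact_mod_cast hup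
  have e3 : 3 * (t : ℝ) * B + 1 ≤ M2 := by exact_mod_cast hM2
  have e4 : c * ((t : ℝ) * (M2 - t * B)) ≤ c * ((P.biUnion Z).card : ℝ) := by
    refine mul_le_mul_of_nonneg_left ?_ hc.le
    linarith
  have e5 : (0 : ℝ) ≤ M2 - t * B := by
    have : (0 : ℝ) ≤ t * B := by positivity
    linarith
  have e6 : 2 * ((M2 : ℝ) - t * B) ≤ c * t * (M2 - t * B) := mul_le_mul_of_nonneg_right ht e5
  linarith

/-- Packet ST. -/
theorem st (hBZ : BZ) (hSL : SL) : ST := by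
  classical
  intro τ hτ hτ1
  obtain ⟨m, c, R, hc, hSL⟩ := hSL τ hτ hτ1
  set t : ℕ := ⌊2 / c⌋₊ + 1 with ht
  set M2 : ℕ := max (3 * t * (2 * m ^ 3) + 1) R with hM2
  have hct : 2 ≤ c * t := by
    have h1 := (Nat.lt_floor_add_one (2 / c)).le
    rw [div_le_iff₀ hc] at h1
    rw [ht]
    push_cast
    linarith
  refine ⟨m, t, max R ⌈(M2 : ℝ) / c⌉₊, ?_⟩
  intro k _ _ w Ξ hw hIP
  by_contra hcon
  push Not at hcon
  have hne : ∀ P : Finset k[X][Y], Fam m M2 w Ξ P → P.card ≠ t := fun P hP =>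
    fam_card hBZ τ c hc m R t M2 (hSL k) hct (le_max_left _ _) (le_max_right _ _) w Ξ hw hIP P hP
  have hex : ∀ j : ℕ, j ≤ t → ∃ P : Finset k[X][Y], Fam m M2 w Ξ P ∧ P.card = j := by
    intro j
    induction j with
    | zero =>
      intro _
      exact ⟨∅, ⟨by simp, by simp⟩, rfl⟩
    | succ j ih =>
      intro hj
      obtain ⟨P, hP, hPj⟩ := ih (by omega)
      have h1 := hcon P (by omega) (fun Φ hΦ => ⟨(hP.1 Φ hΦ).1, (hP.1 Φ hΦ).2.1,
        (hP.1 Φ hΦ).2.2.1⟩)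
      set Ξ₀ := Ξ.filter (fun p => ∀ Φ ∈ P, ev Φ p ≠ 0) with hΞ₀
      have hsub : Ξ₀ ⊆ Ξ := Finset.filter_subset _ _
      have h1' : max R ⌈(M2 : ℝ) / c⌉₊ < Ξ₀.card := by
        convert h1
      obtain ⟨Φ, hirr, hBD, hΦw, hΦc⟩ := hSL k w Ξ₀ (fun p hp => hw p (hsub hp))
        (IP_mono hIP hsub) ((le_max_left _ _).trans h1'.le)
      have h2 : (M2 : ℝ) ≤ ((Ξ₀.filter (fun p => ev Φ p = 0)).card : ℝ) := by
        have h3 : ((⌈(M2 : ℝ) / c⌉₊ : ℕ) : ℝ) ≤ Ξ₀.card := by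
          exact_mod_cast (le_max_right _ _).trans h1'.le
        have h4 := (Nat.le_ceil ((M2 : ℝ) / c)).trans h3
        rw [div_le_iff₀ hc] at h4
        refine le_trans ?_ (le_trans hΦc (le_of_eq ?_))
        · linarith
        · congr!
      have h2' : M2 ≤ (Ξ₀.filter (fun p => ev Φ p = 0)).card := by exact_mod_cast h2
      have hnot : ∀ Ψ ∈ P, ¬ Associated Ψ Φ := by
        intro Ψ hΨ hass
        have hpos : 0 < (Ξ₀.filter (fun p => ev Φ p = 0)).card := by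
          have h5 : 1 ≤ M2 := le_trans (Nat.le_add_left 1 _) (le_max_left _ _)
          exact lt_of_lt_of_le h5 h2'
        obtain ⟨p, hp⟩ := Finset.card_pos.1 hpos
        obtain ⟨hp, hp0⟩ := Finset.mem_filter.1 hp
        exact (Finset.mem_filter.1 hp).2 Ψ hΨ (ev_of_dvd hass.symm.dvd hp0)
      have hΦP : Φ ∉ P := fun h => hnot Φ h (Associated.refl Φ)
      refine ⟨insert Φ P, ⟨?_, ?_⟩, ?_⟩
      · intro Ψ hΨ
        rcases Finset.mem_insert.1 hΨ with rfl | hΨ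
        · refine ⟨hirr, hBD, hΦw, h2'.trans ?_⟩
          refine Finset.card_le_card ?_
          intro p hp
          obtain ⟨hp, hp0⟩ := Finset.mem_filter.1 hp
          exact Finset.mem_filter.2 ⟨hsub hp, hp0⟩
        · exact hP.1 Ψ hΨ
      · intro Ψ hΨ Ψ' hΨ' hne'
        rcases Finset.mem_insert.1 hΨ with h6 | h6
        · rcases Finset.mem_insert.1 hΨ' with h7 | h7
          · exact absurd (h6.trans h7.symm) hne'
          · rw [h6]
            exact fun h => hnot Ψ' h7 h.symm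
        · rcases Finset.mem_insert.1 hΨ' with h7 | h7
          · rw [h7]
            exact hnot Ψ h6
          · exact hP.2 Ψ h6 Ψ' h7 hne'
      · rw [Finset.card_insert_of_notMem hΦP, hPj]
  obtain ⟨P, hP, hPt⟩ := hex t le_rfl
  exact hne P hP hPt

end

end Pool.Agent.Helper85.BL
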