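import Pool.Agent.Helper85.BL.Basic

/-!
# Project BL: resultants of bivariate polynomials
-/

set_option autoImplicit false

namespace Pool.Agent.Helper85.BL

open Polynomial Pool.Agent.Helper29.BL
open scoped Polynomial.Bivariate

noncomputable section

theorem resultant_ne_zero' {A : Type} [CommRing A] [IsDomain A] [UniqueFactorizationMonoid A]
    {f g : A[X]} (hf : f ≠ 0) (h : IsRelPrime f g) : f.resultant g ≠ 0 := by
  intro h0
  set m := f.natDegree
  set n := g.natDegree
  let b₁ := ((degreeLT.basis A m).prod (degreeLT.basis A n)).reindex finSumFinEquiv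
  let b₂ := degreeLT.basis A (m + n)
  have hM := toMatrix_sylvesterMap' (m := m) (n := n) f g le_rfl le_rfl
  have hdet : (sylvester f g m n).det = 0 := h0
  obtain ⟨v, hv, hv0⟩ := Matrix.exists_mulVec_eq_zero_iff.2 hdet
  set x := b₁.equivFun.symm v with hx
  have hxv : (b₁.repr x : Fin (m + n) → A) = v := by
    rw [← Module.Basis.equivFun_apply, hx, LinearEquiv.apply_symm_apply]
  have h1 := LinearMap.toMatrix_mulVec_repr b₁ b₂ (sylvesterMap f g le_rfl le_rfl) x
  rw [hM, hxv, hv0] at h1
  have h2 : sylvesterMap (m := m) (n := n) f g le_rfl le_rfl x = 0 := by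
    apply b₂.repr.injective
    ext i
    rw [← h1]
    simp
  have h3 : f * (x.2 : A[X]) + g * (x.1 : A[X]) = 0 := congrArg Subtype.val h2
  have h4 : f ∣ g * (x.1 : A[X]) := ⟨-(x.2 : A[X]), by linear_combination h3⟩
  have h5 : f ∣ (x.1 : A[X]) := h.dvd_of_dvd_mul_left h4
  have h6 : (x.1 : A[X]) = 0 := by
    by_contra hne
    have h7 := degree_le_of_dvd h5 hne
    have h8 := (mem_degreeLT.1 x.1.2).trans_le (degree_eq_natDegree hf).ge
    exact absurd h7 (not_le.2 h8)
  have h7 : (x.2 : A[X]) = 0 := by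
    rw [h6, mul_zero, add_zero] at h3
    exact (mul_eq_zero.1 h3).resolve_left hf
  have hx0 : x = 0 := Prod.ext (Subtype.ext h6) (Subtype.ext h7)
  apply hv
  rw [← hxv, hx0]
  simp

theorem natDegree_det_le {k : Type} [CommRing k] {n : ℕ} (M : Matrix (Fin n) (Fin n) k[X]) (m : ℕ)
    (h : ∀ i j, (M i j).natDegree ≤ m) : M.det.natDegree ≤ n * m := by
  rw [Matrix.det_apply]
  refine natDegree_sum_le_of_forall_le _ _ fun σ _ => ?_
  have h1 : (∏ i, M (σ i) i).natDegree ≤ n * m := by
    refine (natDegree_prod_le _ _).trans ?_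
    refine (Finset.sum_le_card_nsmul _ _ m fun i _ => h _ _).trans ?_
    simp
  rcases Int.units_eq_one_or (Equiv.Perm.sign σ) with h2 | h2
  · rw [h2, one_smul]
    exact h1
  · rw [h2, Units.neg_smul, one_smul, natDegree_neg]
    exact h1

theorem natDegree_resultant_le {k : Type} [CommRing k] {F G : k[X][Y]} {m : ℕ}
    (hF : ∀ j, (F.coeff j).natDegree ≤ m) (hG : ∀ j, (G.coeff j).natDegree ≤ m) (a b : ℕ) :
    (F.resultant G a b).natDegree ≤ (a + b) * m := by
  refine natDegree_det_le _ m fun i j => ?_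
  unfold sylvester
  rw [Matrix.of_apply]
  induction j using Fin.addCases with
  | left j =>
    rw [Fin.addCases_left]
    split_ifs
    · exact hG _
    · simp
  | right j =>
    rw [Fin.addCases_right]
    split_ifs
    · exact hF _
    · simp

theorem eval_resultant {k : Type} [CommRing k] {F G : k[X][Y]} {a b : ℕ} (hF : F.natDegree ≤ a)
    (hG : G.natDegree ≤ b) (hab : a ≠ 0 ∨ b ≠ 0) {p : k × k} (h1 : ev F p = 0) (h2 : ev G p = 0) :
    (F.resultant G a b).eval p.1 = 0 := by
  obtain ⟨u, v, -, -, h⟩ := exists_mul_add_mul_eq_C_resultant F G hF hG hab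
  have h3 := congrArg (fun H => ev H p) h
  simp only [ev_add, ev_mul, h1, h2, zero_mul, add_zero] at h3
  unfold ev at h3
  rw [evalEval_C] at h3
  exact h3.symm

end

end Pool.Agent.Helper85.BL
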