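import Pool.Agent.Helper85.BL.Basic

/-!
# Packet LS of project BL (MP_a41896_nt)
-/

set_option autoImplicit false

namespace Pool.Agent.Helper85.BL

open Polynomial Pool.Agent.Helper29.BL
open scoped Polynomial.Bivariate

noncomputable section

theorem ls (hBZ : Pool.Agent.Helper29.BL.BZ) : Pool.Agent.Helper29.BL.LS := by
  intro k _ _ m V hV hB
  classical
  obtain ⟨F0, hF0V, hF0⟩ := Submodule.exists_mem_ne_zero_of_ne_bot hV
  -- a common divisor of maximal degree
  set S : Set k[X][Y] := {D | ∀ F ∈ V, D ∣ F} with hS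
  have hS1 : (1 : k[X][Y]) ∈ S := fun F _ => one_dvd F
  have hSne : ∀ D ∈ S, D ≠ 0 := by
    rintro D hD rfl
    exact hF0 (zero_dvd_iff.1 (hD F0 hF0V))
  have hSdt : ∀ D ∈ S, dt D ≤ 2 * m := fun D hD =>
    BD.dt_le (BD_of_dvd hF0 (hD F0 hF0V) (hB F0 hF0V))
  obtain ⟨D, hD, hmax⟩ : ∃ D ∈ S, ∀ D' ∈ S, dt D' ≤ dt D := by
    have hwf := (measure (fun D : k[X][Y] => 2 * m - dt D)).wf
    refine ⟨hwf.min S ⟨1, hS1⟩, hwf.min_mem _ _, fun D' hD' => ?_⟩
    have h1 := hwf.not_lt_min S hD'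
    have h2 := hSdt D' hD'
    have h3 := hSdt _ (hwf.min_mem S ⟨1, hS1⟩)
    change ¬ (2 * m - dt D' < 2 * m - dt (hwf.min S ⟨1, hS1⟩)) at h1
    omega
  have hD0 := hSne D hD
  refine ⟨D, hD0, BD_of_dvd hF0 (hD F0 hF0V) (hB F0 hF0V), hD, ?_⟩
  -- the reduced system
  set V' : Submodule k k[X][Y] := V.comap (LinearMap.mulLeft k D) with hV'
  have hmem : ∀ G, G ∈ V' ↔ D * G ∈ V := fun G => Iff.rfl
  have hfac : ∀ F ∈ V, ∃ G ∈ V', F = D * G := by
    intro F hF
    obtain ⟨G, rfl⟩ := hD F hF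
    exact ⟨G, hF, rfl⟩
  have hBV' : ∀ G ∈ V', BD m G := by
    intro G hG
    by_cases h0 : G = 0
    · rw [h0]; exact BD_zero m
    · exact BD_of_dvd (mul_ne_zero hD0 h0) (Dvd.intro_left D rfl) (hB _ hG)
  obtain ⟨G, hGV', hG⟩ := hfac F0 hF0V
  have hG0 : G ≠ 0 := by
    rintro rfl
    rw [mul_zero] at hG
    exact hF0 hG
  -- the proper subspaces
  let φs : Finset k[X][Y] := (UniqueFactorizationMonoid.factors G).toFinset
  have hφirr : ∀ φ ∈ φs, Irreducible φ := fun φ hφ =>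
    UniqueFactorizationMonoid.irreducible_of_factor φ (Multiset.mem_toFinset.1 hφ)
  let sub : k[X][Y] → Subspace k V' := fun φ =>
    { carrier := {H : V' | φ ∣ (H : k[X][Y])}
      add_mem' := fun {a b} ha hb => dvd_add ha hb
      zero_mem' := dvd_zero φ
      smul_mem' := fun c a ha => by
        obtain ⟨q, hq⟩ := ha
        exact ⟨c • q, by
          change c • (a : k[X][Y]) = φ * (c • q)
          rw [hq, mul_smul_comm]⟩ }
  have hsub : ∀ φ (H : V'), H ∈ sub φ ↔ φ ∣ (H : k[X][Y]) := fun φ H => Iff.rfl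
  have htop : (⊤ : Subspace k V') ∉ φs.image sub := by
    intro h
    obtain ⟨φ, hφ, h⟩ := Finset.mem_image.1 h
    have hirr := hφirr φ hφ
    have hall : ∀ H ∈ V', φ ∣ H := by
      intro H hH
      have : (⟨H, hH⟩ : V') ∈ sub φ := by
        rw [h]
        exact Submodule.mem_top
      exact (hsub φ _).1 this
    have hmem : D * φ ∈ S := by
      intro F hF
      obtain ⟨H, hH, rfl⟩ := hfac F hF
      exact mul_dvd_mul_left D (hall H hH)
    have h1 := hmax _ hmem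
    rw [dt_mul hD0 hirr.ne_zero] at h1
    have h2 := dt_pos hirr.ne_zero hirr.not_isUnit
    omega
  obtain ⟨H, hH⟩ : ∃ H : V', H ∉ ⋃ p ∈ φs.image sub, ((p : Subspace k V') : Set V') := by
    by_contra hcon
    push Not at hcon
    exact Subspace.biUnion_ne_univ_of_top_notMem htop (Set.eq_univ_of_forall hcon)
  have hHφ : ∀ φ ∈ φs, ¬ φ ∣ (H : k[X][Y]) := by
    intro φ hφ hdvd
    apply hH
    simp only [Set.mem_iUnion]
    exact ⟨sub φ, Finset.mem_image_of_mem sub hφ, hdvd⟩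
  have hrel : IsRelPrime G (H : k[X][Y]) := by
    intro d hdG hdH
    by_contra hu
    have hd0 : d ≠ 0 := ne_zero_of_dvd_ne_zero hG0 hdG
    obtain ⟨ψ, hψ, hψd⟩ := WfDvdMonoid.exists_irreducible_factor hu hd0
    obtain ⟨φ, hφ, hassoc⟩ :=
      UniqueFactorizationMonoid.exists_mem_factors_of_dvd hG0 hψ (hψd.trans hdG)
    exact hHφ φ (Multiset.mem_toFinset.2 hφ) (hassoc.symm.dvd.trans (hψd.trans hdH))
  intro s hs
  refine hBZ k m G H (hBV' G hGV') (hBV' H H.2) hrel s fun p hp => ?_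
  obtain ⟨h1, h2⟩ := hs p hp
  constructor
  · have := h1 _ ((hmem G).1 hGV')
    rw [ev_mul] at this
    exact (mul_eq_zero.1 this).resolve_left h2
  · have := h1 _ ((hmem H).1 H.2)
    rw [ev_mul] at this
    exact (mul_eq_zero.1 this).resolve_left h2

end

end Pool.Agent.Helper85.BL
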