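import Pool.Agent.Helper85.BL.LS

/-!
# Packet SL of project BL (MP_a41896_nt), part 1
-/

set_option autoImplicit false

namespace Pool.Agent.Helper85.BL

open Polynomial Pool.Agent.Helper29.BL
open scoped Polynomial.Bivariate

noncomputable section

variable {k : Type} [Field k]

/-- Greedy removal of zero sets. -/
theorem peel (w : k × k) (m q : ℕ) (hq : 1 ≤ q) (P : k[X][Y] → Prop) :
    ∀ (n : ℕ) (Ξ : Finset (k × k)), Ξ.card = n → ∃ Ξ' ⊆ Ξ, ∃ (a : ℕ) (F : k[X][Y]),
      BD (a * m) F ∧ ev F w ≠ 0 ∧ (∀ p ∈ Ξ, p ∉ Ξ' → ev F p = 0) ∧ a * q + Ξ'.card ≤ Ξ.card ∧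
      ∀ G, P G → BD m G → ev G w ≠ 0 → ∀ U ⊆ Ξ', (∀ p ∈ U, ev G p = 0) → U.card < q := by
  classical
  intro n
  induction n using Nat.strong_induction_on with
  | _ n ih =>
    intro Ξ hΞ
    by_cases h : ∀ G, P G → BD m G → ev G w ≠ 0 → ∀ U ⊆ Ξ, (∀ p ∈ U, ev G p = 0) → U.card < q
    · refine ⟨Ξ, subset_rfl, 0, 1, BD_one _, ?_, fun p hp hp' => absurd hp hp', by simp, h⟩
      rw [ev_one]
      exact one_ne_zero
    · push Not at h
      obtain ⟨G, hPG, hBG, hGw, U, hU, hGU, hUq⟩ := h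
      have hcard : (Ξ \ U).card + U.card = Ξ.card := Finset.card_sdiff_add_card_eq_card hU
      obtain ⟨Ξ', hΞ', a, F, hBF, hFw, hFz, hcount, hmax⟩ :=
        ih (Ξ \ U).card (by omega) (Ξ \ U) rfl
      refine ⟨Ξ', hΞ'.trans Finset.sdiff_subset, a + 1, F * G, ?_, ?_, ?_, ?_, hmax⟩
      · have := BD.mul hBF hBG
        rwa [show a * m + m = (a + 1) * m by ring] at this
      · rw [ev_mul]
        exact mul_ne_zero hFw hGw
      · intro p hp hp'
        rw [ev_mul]
        by_cases hpU : p ∈ U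
        · rw [hGU p hpU, mul_zero]
        · rw [hFz p (Finset.mem_sdiff.2 ⟨hp, hpU⟩) hp', zero_mul]
      · have : (a + 1) * q = a * q + q := by ring
        omega

/-- The polynomial with given coefficients. -/
def mkp (m : ℕ) : (Fin (m + 1) × Fin (m + 1) → k) →ₗ[k] k[X][Y] where
  toFun f := ∑ ij, monomial (ij.2 : ℕ) (monomial (ij.1 : ℕ) (f ij))
  map_add' f g := by
    simp only [Pi.add_apply, map_add, Finset.sum_add_distrib]
  map_smul' c f := by
    simp only [Pi.smul_apply, RingHom.id_apply, Finset.smul_sum]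
    refine Finset.sum_congr rfl fun ij _ => ?_
    rw [smul_monomial, smul_monomial]

theorem mkp_apply (m : ℕ) (f : Fin (m + 1) × Fin (m + 1) → k) : mkp m f =
    ∑ ij : Fin (m + 1) × Fin (m + 1), monomial (ij.2 : ℕ) (monomial (ij.1 : ℕ) (f ij)) := rfl

theorem mkp_coeff (m : ℕ) (f : Fin (m + 1) × Fin (m + 1) → k) (ij : Fin (m + 1) × Fin (m + 1)) :
    ((mkp m f).coeff ij.2).coeff ij.1 = f ij := by
  rw [mkp_apply, finsetSum_coeff, finsetSum_coeff]
  rw [Finset.sum_eq_single ij]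
  · simp
  · intro b _ hb
    rw [coeff_monomial]
    split_ifs with h1
    · rw [coeff_monomial]
      split_ifs with h2
      · exact absurd (Prod.ext (Fin.ext h2) (Fin.ext h1)) hb
      · rfl
    · simp
  · intro h
    exact absurd (Finset.mem_univ ij) h

theorem mkp_inj (m : ℕ) (f : Fin (m + 1) × Fin (m + 1) → k) (h : mkp m f = 0) : f = 0 := by
  ext ij
  rw [← mkp_coeff m f ij, h]
  simp

theorem BD_sum {ι : Type} (s : Finset ι) (m : ℕ) (F : ι → k[X][Y]) (h : ∀ i ∈ s, BD m (F i)) :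
    BD m (∑ i ∈ s, F i) := by
  classical
  induction s using Finset.induction_on with
  | empty => simpa using BD_zero m
  | insert a s ha ih =>
    rw [Finset.sum_insert ha]
    exact BD.add (h a (Finset.mem_insert_self a s))
      (ih fun i hi => h i (Finset.mem_insert_of_mem hi))

theorem mkp_BD (m : ℕ) (f : Fin (m + 1) × Fin (m + 1) → k) : BD m (mkp m f) := by
  rw [mkp_apply]
  refine BD_sum _ _ _ fun ij _ => ?_
  rw [BD_iff, Bivariate.swap_monomial_monomial]
  exact ⟨(natDegree_monomial_le _).trans (by omega), (natDegree_monomial_le _).trans (by omega)⟩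

theorem exists_vanish (m : ℕ) (U : Finset (k × k)) (hU : U.card < (m + 1) ^ 2) :
    ∃ G : k[X][Y], G ≠ 0 ∧ BD m G ∧ ∀ p ∈ U, ev G p = 0 := by
  let E : (Fin (m + 1) × Fin (m + 1) → k) →ₗ[k] (U → k) :=
    { toFun := fun f p => ev (mkp m f) p
      map_add' := fun f g => by
        ext p
        simp only [map_add, ev_add, Pi.add_apply]
      map_smul' := fun c f => by
        ext p
        simp only [map_smul, ev_smul, Pi.smul_apply, RingHom.id_apply, smul_eq_mul] }
  have hfr : Module.finrank k (U → k) < Module.finrank k (Fin (m + 1) × Fin (m + 1) → k) := by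
    rw [Module.finrank_fintype_fun_eq_card, Module.finrank_fintype_fun_eq_card]
    simp only [Fintype.card_coe, Fintype.card_prod, Fintype.card_fin]
    rw [← pow_two]
    exact hU
  obtain ⟨f, hf, hf0⟩ := Submodule.exists_mem_ne_zero_of_ne_bot
    (LinearMap.ker_ne_bot_of_finrank_lt (f := E) hfr)
  refine ⟨mkp m f, fun h => hf0 (mkp_inj m f h), mkp_BD m f, fun p hp => ?_⟩
  have := congrFun (LinearMap.mem_ker.1 hf) ⟨p, hp⟩
  exact this

open Classical in
/-- The interpolation argument. -/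
theorem exists_vanish' (m : ℕ) (hm : 1 ≤ m) (w : k × k) (Ξ : Finset (k × k))
    (h : ∀ G : k[X][Y], BD m G → ev G w ≠ 0 → ∀ U ⊆ Ξ, (∀ p ∈ U, ev G p = 0) → U.card < m ^ 2) :
    ∃ G : k[X][Y], G ≠ 0 ∧ BD m G ∧ ∀ p ∈ Ξ, ev G p = 0 := by
  by_contra hcon
  push Not at hcon
  let N : Finset (k × k) → Prop := fun U => ∀ G : k[X][Y], BD m G → (∀ p ∈ U, ev G p = 0) → G = 0
  have hN : N Ξ := by
    intro G hG hG0
    by_contra hne
    obtain ⟨p, hp, hp0⟩ := hcon G hne hG
    exact hp0 (hG0 p hp)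
  obtain ⟨U, hU, hmin⟩ := Finset.exists_min_image (Ξ.powerset.filter N) Finset.card
    ⟨Ξ, Finset.mem_filter.2 ⟨Finset.mem_powerset_self Ξ, hN⟩⟩
  obtain ⟨hUΞ, hNU⟩ := Finset.mem_filter.1 hU
  rw [Finset.mem_powerset] at hUΞ
  have hUcard : (m + 1) ^ 2 ≤ U.card := by
    by_contra hlt
    push Not at hlt
    obtain ⟨G, hG0, hGB, hGv⟩ := exists_vanish m U hlt
    exact hG0 (hNU G hGB hGv)
  have hex : ∀ q : U, ∃ G : k[X][Y], BD m G ∧ (∀ p ∈ U.erase q, ev G p = 0) ∧ G ≠ 0 := by
    rintro ⟨q, hq⟩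
    have hlt : (U.erase q).card < U.card := Finset.card_erase_lt_of_mem hq
    have hnot : ¬ N (U.erase q) := by
      intro hNe
      have := hmin (U.erase q) (Finset.mem_filter.2
        ⟨Finset.mem_powerset.2 ((Finset.erase_subset q U).trans hUΞ), hNe⟩)
      omega
    have hnot' : ¬ ∀ G : k[X][Y], BD m G → (∀ p ∈ U.erase q, ev G p = 0) → G = 0 := hnot
    push Not at hnot'
    exact hnot'
  choose g hgB hgv hg0 using hex
  have hgq : ∀ q : U, ev (g q) q ≠ 0 := by
    intro q hq0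
    apply hg0 q
    refine hNU (g q) (hgB q) fun p hp => ?_
    by_cases hpq : p = q
    · rw [hpq]; exact hq0
    · exact hgv q p (Finset.mem_erase.2 ⟨hpq, hp⟩)
  have hH : (1 : k[X][Y]) - ∑ q : U, (ev (g q) q)⁻¹ • g q = 0 := by
    apply hNU
    · rw [sub_eq_add_neg, ← neg_one_smul k (∑ q : U, (ev (g q) q)⁻¹ • g q)]
      exact BD.add (BD_one m) (BD.smul (BD_sum _ _ _ fun q _ => BD.smul (hgB q) _) _)
    · intro p hp
      have h1 : ev ((1 : k[X][Y]) - ∑ q : U, (ev (g q) q)⁻¹ • g q) p =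
          1 - ∑ q : U, (ev (g q) q)⁻¹ * ev (g q) p := by
        unfold ev
        rw [evalEval_sub, evalEval_one, evalEval_finsetSum]
        congr 1
        refine Finset.sum_congr rfl fun q _ => ?_
        rw [evalEval_smul, smul_eq_mul]
      rw [h1, Finset.sum_eq_single (⟨p, hp⟩ : U)]
      · rw [inv_mul_cancel₀ (hgq ⟨p, hp⟩), sub_self]
      · intro q _ hq
        rw [hgv q p (Finset.mem_erase.2 ⟨fun h => hq (Subtype.ext h.symm), hp⟩), mul_zero]
      · intro h
        exact absurd (Finset.mem_univ _) h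
  have hw : ev ((1 : k[X][Y]) - ∑ q : U, (ev (g q) q)⁻¹ • g q) w =
      1 - ∑ q : U, (ev (g q) q)⁻¹ * ev (g q) w := by
    unfold ev
    rw [evalEval_sub, evalEval_one, evalEval_finsetSum]
    congr 1
    refine Finset.sum_congr rfl fun q _ => ?_
    rw [evalEval_smul, smul_eq_mul]
  obtain ⟨q, hq⟩ : ∃ q : U, ev (g q) w ≠ 0 := by
    by_contra hall
    push Not at hall
    rw [hH] at hw
    have h0 : ev (0 : k[X][Y]) w = 0 := by
      unfold ev
      exact evalEval_zero _ _
    rw [h0] at hw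
    rw [Finset.sum_eq_zero (fun q _ => by rw [hall q, mul_zero])] at hw
    simp at hw
  have h1 := h (g q) (hgB q) hq (U.erase q) ((Finset.erase_subset _ U).trans hUΞ) (hgv q)
  rw [Finset.card_erase_of_mem q.2] at h1
  nlinarith [Nat.sub_add_cancel (show 1 ≤ U.card by nlinarith)]

theorem card_le_dt (s : Multiset k[X][Y]) (h : ∀ φ ∈ s, Irreducible φ) : s.card ≤ dt s.prod := by
  induction s using Multiset.induction_on with
  | empty => simp
  | cons a s ih =>
    have ha := h a (Multiset.mem_cons_self a s)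
    have hs := ih fun φ hφ => h φ (Multiset.mem_cons_of_mem hφ)
    have hs0 : s.prod ≠ 0 := by
      rw [Ne, Multiset.prod_eq_zero_iff]
      intro h0
      exact (h 0 (Multiset.mem_cons_of_mem h0)).ne_zero rfl
    rw [Multiset.prod_cons, dt_mul ha.ne_zero hs0, Multiset.card_cons]
    have := dt_pos ha.ne_zero ha.not_isUnit
    omega

theorem dt_le_of_dvd {F G : k[X][Y]} (hG : G ≠ 0) (h : F ∣ G) : dt F ≤ dt G := by
  obtain ⟨H, rfl⟩ := h
  rw [dt_mul (left_ne_zero_of_mul hG) (right_ne_zero_of_mul hG)]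
  omega

open Classical in
/-- The irreducible factors of `D`. -/
theorem exists_factors {m : ℕ} {D : k[X][Y]} (hD : D ≠ 0) (hB : BD m D) :
    ∃ P : Finset k[X][Y], P.card ≤ 2 * m ∧ (∀ φ ∈ P, Irreducible φ ∧ BD m φ) ∧
      ∀ p, ev D p = 0 → ∃ φ ∈ P, ev φ p = 0 := by
  refine ⟨(UniqueFactorizationMonoid.factors D).toFinset, ?_, ?_, ?_⟩
  · refine (Multiset.toFinset_card_le _).trans ?_
    refine (card_le_dt _ UniqueFactorizationMonoid.irreducible_of_factor).trans ?_
    refine (dt_le_of_dvd hD (UniqueFactorizationMonoid.factors_prod hD).dvd).trans ?_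
    exact BD.dt_le hB
  · intro φ hφ
    rw [Multiset.mem_toFinset] at hφ
    exact ⟨UniqueFactorizationMonoid.irreducible_of_factor φ hφ,
      BD_of_dvd hD (UniqueFactorizationMonoid.dvd_of_mem_factors hφ) hB⟩
  · intro p hp
    have h1 : ev (UniqueFactorizationMonoid.factors D).prod p = 0 :=
      ev_of_dvd (UniqueFactorizationMonoid.factors_prod hD).symm.dvd hp
    have h2 : ev (UniqueFactorizationMonoid.factors D).prod p =
        ((UniqueFactorizationMonoid.factors D).map fun φ => ev φ p).prod := by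
      unfold ev
      exact evalEval_multiset_prod _ _ _
    rw [h2, Multiset.prod_eq_zero_iff, Multiset.mem_map] at h1
    obtain ⟨φ, hφ, h0⟩ := h1
    exact ⟨φ, Multiset.mem_toFinset.2 hφ, h0⟩

end

end Pool.Agent.Helper85.BL
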