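import Pool.Agent.Helper29.BL.GoalsA
import Pool.Agent.Helper29.BL.GoalsD

/-!
# Packet STB of project BL (MP_a41896_nt)
-/

set_option autoImplicit false

namespace Pool.Agent.Helper85.BL

open Polynomial Pool.Agent.Helper29.BL WeierstrassCurve
open scoped Polynomial.Bivariate

noncomputable section

theorem NT.aff {K : Type} [Field K] [DecidableEq K] {W₁ W₂ : Affine K}
    {z : W₁.Point × W₂.Point} (h : NT z) : Aff z := by
  constructor
  · have := h.1 1 one_pos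
    rwa [one_nsmul] at this
  · have := h.2 1 one_pos
    rwa [one_nsmul] at this

theorem NT.nsmul {K : Type} [Field K] [DecidableEq K] {W₁ W₂ : Affine K}
    {z : W₁.Point × W₂.Point} (h : NT z) {n : ℕ} (hn : 1 ≤ n) : NT (n • z) := by
  constructor
  · intro k hk
    rw [Prod.smul_fst, ← mul_smul]
    exact h.1 _ (Nat.mul_pos hk hn)
  · intro k hk
    rw [Prod.smul_snd, ← mul_smul]
    exact h.2 _ (Nat.mul_pos hk hn)

/-- The dichotomy: a stable curve, no degenerate points. -/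
theorem stb_pair (hSPEC : SPEC) (hKP : KP) (K : Type) [Field K] [CharZero K] [DecidableEq K]
    (W₁ W₂ : Affine K) [W₁.IsElliptic] [W₂.IsElliptic] (m : ℕ) (Φ : K[X][Y]) (hB : BD m Φ)
    (hirr : Irreducible Φ) (hpos : PosDeg Φ) (s : ℕ) (S : Finset (W₁.Point × W₂.Point))
    (hS : 16 * s + 1 < S.card)
    (hst : ∀ z ∈ S, ∀ z' ∈ S, z ≠ z' → NT (z - z') ∧
        Φ ∣ Tr W₁ W₂ m Φ (xc (z - z').1) (xc (z - z').2))
    (hNT : ∀ z ∈ S, NT z) (hD : ∀ z ∈ S, ¬ Deg (8 * m) z) :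
    ∃ (zs : W₁.Point × W₂.Point) (S₂ : Finset (W₁.Point × W₂.Point)) (n : ℕ) (F : K[X][Y]),
      zs ∈ S ∧ S₂ ⊆ S ∧ zs ∉ S₂ ∧ S₂.card = s ∧ 1 ≤ n ∧ n ≤ 17 ∧ BD (8 * m) F ∧
      ev F (kap (n • zs)) ≠ 0 ∧ ∀ z ∈ S₂, ev F (kap (n • (zs - z))) = 0 := by
  classical
  obtain ⟨cl, hcl⟩ := hSPEC K W₁ W₂ m Φ hB hirr hpos
  obtain ⟨FF, hFB, ⟨F₀, hF₀, hF₀0⟩, hFF⟩ := hKP K W₁ W₂ m Φ hB hirr hpos
  obtain ⟨z₀, hz₀⟩ : S.Nonempty := Finset.card_pos.1 (by omega)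
  -- pigeonhole
  have hcard : (Finset.univ : Finset (Fin 16)).card * s < (S.erase z₀).card := by
    rw [Finset.card_erase_of_mem hz₀, Finset.card_univ, Fintype.card_fin]
    omega
  obtain ⟨c, -, hc⟩ := Finset.exists_lt_card_fiber_of_mul_lt_card_of_maps_to
    (f := fun z => cl (z - z₀)) (fun a _ => Finset.mem_univ _) hcard
  set S₁ := (S.erase z₀).filter (fun z => cl (z - z₀) = c) with hS₁
  have hS₁S : S₁ ⊆ S := (Finset.filter_subset _ _).trans (Finset.erase_subset _ _)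
  have hS₁st : ∀ z ∈ S₁, ∀ z' ∈ S₁, z ≠ z' → ∀ n : ℕ, 1 ≤ n →
      Φ ∣ Tr W₁ W₂ m Φ (xc (n • (z - z')).1) (xc (n • (z - z')).2) := by
    intro z hz z' hz' hne n hn
    obtain ⟨h1, h2⟩ := Finset.mem_filter.1 hz
    obtain ⟨h1', h2'⟩ := Finset.mem_filter.1 hz'
    obtain ⟨h3, h4⟩ := Finset.mem_erase.1 h1
    obtain ⟨h3', h4'⟩ := Finset.mem_erase.1 h1'
    have e : z - z' = (z - z₀) - (z' - z₀) := by abel
    have h5 := hcl (z - z₀) (z' - z₀) (hst z h4 z₀ hz₀ h3).1 (hst z' h4' z₀ hz₀ h3').1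
      (by rw [← e]; exact (hst z h4 z' h4' hne).1)
      (hst z h4 z₀ hz₀ h3).2 (hst z' h4' z₀ hz₀ h3').2 (h2.trans h2'.symm) n hn
    rw [← e] at h5
    exact h5
  obtain ⟨zs, hzs⟩ : S₁.Nonempty := Finset.card_pos.1 (by omega)
  have hzsS := hS₁S hzs
  obtain ⟨S₂, hS₂, hS₂c⟩ := Finset.exists_subset_card_eq (s := S₁.erase zs) (n := s) (by
    rw [Finset.card_erase_of_mem hzs]
    omega)
  -- some `n ≤ 17` is not stable
  have hex : ∃ n : ℕ, 1 ≤ n ∧ n ≤ 17 ∧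
      ¬ Φ ∣ Tr W₁ W₂ m Φ (xc (n • zs).1) (xc (n • zs).2) := by
    by_contra hall
    push Not at hall
    obtain ⟨i, hi, j, hj, hij, hcij⟩ := Finset.exists_ne_map_eq_of_card_lt_of_maps_to
      (s := Finset.Icc 1 17) (t := (Finset.univ : Finset (Fin 16)))
      (f := fun n => cl (n • zs)) (by simp) (fun a _ => Finset.mem_univ _)
    wlog hlt : i < j generalizing i j
    · exact this j hj i hi hij.symm hcij.symm (lt_of_le_of_ne (not_lt.1 hlt) hij.symm)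
    rw [Finset.mem_Icc] at hi hj
    have e : j • zs - i • zs = (j - i) • zs := by
      rw [sub_nsmul zs hlt.le, sub_eq_add_neg]
    have hNTs := hNT zs hzsS
    have h5 := hcl (j • zs) (i • zs) (NT.nsmul hNTs hj.1) (NT.nsmul hNTs hi.1)
      (by rw [e]; exact NT.nsmul hNTs (by omega)) (hall j hj.1 hj.2) (hall i hi.1 hi.2)
      hcij.symm
    apply hD zs hzsS
    refine ⟨j - i, by omega, by omega, F₀, hF₀0, hFB F₀ hF₀, fun n hn => ?_⟩
    have h6 := h5 n hn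
    rw [e, ← mul_smul] at h6
    exact (hFF _ _).2 h6 F₀ hF₀
  obtain ⟨n, hn1, hn17, hns⟩ := hex
  have hF : ∃ F ∈ FF, ev F (xc (n • zs).1, xc (n • zs).2) ≠ 0 := by
    by_contra hall
    push Not at hall
    exact hns ((hFF _ _).1 hall)
  obtain ⟨F, hFF', hFne⟩ := hF
  refine ⟨zs, S₂, n, F, hzsS, fun z hz => hS₁S (Finset.mem_of_mem_erase (hS₂ hz)), fun h =>
    (Finset.mem_erase.1 (hS₂ h)).1 rfl, hS₂c, hn1, hn17, hFB F hFF', hFne, fun z hz => ?_⟩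
  obtain ⟨h1, h2⟩ := Finset.mem_erase.1 (hS₂ hz)
  exact (hFF _ _).2 (hS₁st zs hzs z h2 h1.symm n hn1) F hFF'

/-- Packet STB. -/
theorem stb_of (hSPEC : SPEC) (hKP : KP) (hSUB : SUB) (hMI : MI) : STB := by
  classical
  intro K _ _ _ W₁ W₂ _ _ H₁ H₂ c₀ hH₁ hH₂ d m hd
  have hDn : ∀ n : ℕ, ∃ D : ℕ, 1 ≤ n → ∀ (d : ℕ) (F : K[X][Y]), BD d F → ∃ H : K[X][Y],
      BD (d * D) H ∧ ∀ y : W₁.Point × W₂.Point, NT y →
        ∃ β : K, β ≠ 0 ∧ ev H (kap y) = β * ev F (kap (n • y)) := by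
    intro n
    by_cases hn : 1 ≤ n
    · obtain ⟨D, hD⟩ := hSUB K W₁ W₂ n hn
      exact ⟨D, fun _ => hD⟩
    · exact ⟨0, fun h => absurd h hn⟩
  choose Dn hDn using hDn
  set Dm : ℕ := ∑ n ∈ Finset.range 18, Dn n with hDm
  have hDle : ∀ n, n ≤ 17 → Dn n ≤ Dm := by
    intro n hn
    exact Finset.single_le_sum (f := Dn) (fun i _ => Nat.zero_le _)
      (Finset.mem_range.2 (by omega))
  set kmax : ℕ := 8 * m * Dm with hkmax
  obtain ⟨s, hs⟩ := exists_nat_gt (12 * ((kmax : ℝ) + 1) / d)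
  obtain ⟨ε, hε, T₀, hMI'⟩ := hMI K W₁ W₂ kmax s d hd
  have hc₀ : 0 ≤ c₀ := (abs_nonneg _).trans (hH₁.near 0)
  refine ⟨16 * s + 2, ε / 2, by positivity, max T₀ (max (4 * c₀ / ε) c₀), ?_⟩
  intro T hT B hBall hDeg S Φ hSB hSq hirr hBD hpos hst
  have hT1 : T₀ ≤ T := (le_max_left _ _).trans hT
  have hT2 : 4 * c₀ / ε ≤ T := ((le_max_left _ _).trans (le_max_right _ _)).trans hT
  have hT3 : c₀ ≤ T := ((le_max_right _ _).trans (le_max_right _ _)).trans hT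
  rw [div_le_iff₀ hε] at hT2
  have hhle : ∀ z : W₁.Point × W₂.Point, hh z ≤ H₁ z.1 + H₂ z.2 + 2 * c₀ := by
    intro z
    have h1 := abs_le.1 (hH₁.near z.1)
    have h2 := abs_le.1 (hH₂.near z.2)
    unfold hh
    linarith [h1.1, h2.1]
  obtain ⟨zs, S₂, n, F, hzs, hS₂, hzsn, hS₂c, hn1, hn17, hFB, hFne, hF0⟩ :=
    stb_pair hSPEC hKP K W₁ W₂ m Φ hBD hirr hpos s S (by omega) hst
      (fun z hz => hBall.nt z (hSB hz)) (fun z hz => hDeg z (hSB hz))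
  obtain ⟨H, hHB, hH⟩ := hDn n hn1 (8 * m) F hFB
  have hdiam : ∀ z ∈ B, ∀ z' ∈ B, hh (z - z') ≤ ε * T := by
    intro z hz z' hz'
    have h1 := hBall.diam z hz z' hz'
    have h2 := hhle (z - z')
    rw [Prod.fst_sub, Prod.snd_sub] at h2
    linarith
  have hk : 8 * m * Dn n ≤ kmax := Nat.mul_le_mul_left _ (hDle n hn17)
  have hfin := hMI' T hT1 zs S₂ (NT.aff (hBall.nt zs (hSB hzs)))
    (by
      have h1 := hBall.size zs (hSB hzs)
      have h2 := hhle zs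
      linarith)
    hS₂c.le
    (fun z hz => by
      have hne : zs ≠ z := fun h => hzsn (h ▸ hz)
      exact ⟨NT.aff (hBall.nt z (hSB (hS₂ hz))), NT.aff (hst zs hzs z (hS₂ hz) hne).1,
        hdiam zs (hSB hzs) z (hSB (hS₂ hz)), hBall.bad z (hSB (hS₂ hz))⟩)
    (fun z hz z' hz' => hdiam z (hSB (hS₂ hz)) z' (hSB (hS₂ hz')))
    (8 * m * Dn n) hk H hHB
    (fun z hz => by
      have hne : zs ≠ z := fun h => hzsn (h ▸ hz)
      obtain ⟨β, -, hβ⟩ := hH (zs - z) (hst zs hzs z (hS₂ hz) hne).1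
      rw [hβ, hF0 z hz, mul_zero])
    (by
      obtain ⟨β, hβ0, hβ⟩ := hH zs (hBall.nt zs (hSB hzs))
      rw [hβ]
      exact mul_ne_zero hβ0 hFne)
  rw [hS₂c] at hfin
  rw [div_lt_iff₀ hd] at hs
  have hk' : ((8 * m * Dn n : ℕ) : ℝ) ≤ kmax := by exact_mod_cast hk
  linarith

end

end Pool.Agent.Helper85.BL
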